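import Pool.Agent.Run7.h672.Growth

open Finset

namespace Run7.h672

variable {V : Type*} [Fintype V] [DecidableEq V]

attribute [local grind =] Finset.mem_compl Finset.disjoint_left

namespace Cub

variable {G : Cub V}

lemma fam_side {H A Z : Finset V} (hH : G.Fam H) (hd : Disjoint A Z) (hU : A ∪ Z = H)
    (hZ : Z.Nonempty) (he : G.e A Z ≤ 1) : G.Fam Z := by
  refine ⟨conn_of_bridge (Z := A) hd.symm (by rw [union_comm, hU]; exact hH.1) hZ
    (by rw [e_comm]; exact he), ?_⟩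
  have h1 : Zᶜ = Hᶜ ∪ A := by rw [← hU]; ext x; grind
  rw [h1]
  refine kc_add hH.2 ?_
  intro T hT hTn
  have h2 : Tᶜ = ((Hᶜ ∪ A) \ T) ∪ Z := by rw [← hU]; ext x; grind
  have h3 : Disjoint ((Hᶜ ∪ A) \ T) Z := by rw [← hU]; grind
  have h4 : 3 ≤ G.d T := G.three_le_d hTn (hZ.mono (by rw [h2]; exact subset_union_right))
  rw [d, h2, e_union_right G h3] at h4
  have h5 : G.e T Z ≤ G.e A Z := G.e_mono hT (subset_refl _)
  omega

lemma d_gt {A Z S : Finset V} (hd : Disjoint A Z) (he : G.e A Z ≤ 1) (hS : S ⊆ A)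
    (hSn : S.Nonempty) (hZ : Z.Nonempty) : G.d Z + 1 ≤ G.d (Z ∪ S) := by
  have hSZ : Disjoint Z S := (hd.mono_left hS).symm
  have h1 : G.d Z = G.e Z S + G.e Z (Z ∪ S)ᶜ := e_eq2 (by ext x; grind) (by grind)
  have h2 : G.d S = G.e S Z + G.e S (Z ∪ S)ᶜ := e_eq2 (by ext x; grind) (by grind)
  have h3 : G.d (Z ∪ S) = G.e Z (Z ∪ S)ᶜ + G.e S (Z ∪ S)ᶜ := e_union_left G hSZ _
  have h4 : 3 ≤ G.d S := G.three_le_d hSn (hZ.mono (by grind))
  have h5 : G.e S Z ≤ G.e A Z := G.e_mono hS (subset_refl _)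
  rw [e_comm G Z S] at h1
  omega

lemma density_aux {H A Z : Finset V} (hH : G.Fam H) (hd : Disjoint A Z) (hU : A ∪ Z = H)
    (hA : A.Nonempty) (hZ : Z.Nonempty) (he : G.e A Z ≤ 1) (j : ℕ) :
    (∃ (D : Finset ℕ) (W : Finset V), D.card = j + 1 ∧
      (∀ s ∈ D, s ≤ (W \ Z).card ∧ ∃ S, S ⊆ A ∧ S.card = s ∧ G.Fam (Z ∪ S)) ∧
      Z ⊆ W ∧ W ⊆ H ∧ G.Fam W ∧ G.d W + W.card ≤ G.d Z + Z.card + 2 * j) ∨ A.card + 1 ≤ 2 * j := by
  induction j with
  | zero =>
    left
    refine ⟨{0}, Z, by simp, ?_, subset_refl _, hU ▸ subset_union_right, fam_side hH hd hU hZ he,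
      by omega⟩
    intro s hs
    rw [mem_singleton] at hs
    subst hs
    exact ⟨Nat.zero_le _, ∅, empty_subset _, by simp, by simpa using fam_side hH hd hU hZ he⟩
  | succ j ih =>
    rcases ih with ⟨D, W, hD, hDs, hZW, hWH, hW, hphi⟩ | h
    swap
    · right; omega
    by_cases hWeq : W = H
    · right
      subst hWeq
      have h1 : G.d Z + 1 ≤ G.d (Z ∪ A) := d_gt hd he (subset_refl _) hA hZ
      have h2 : W.card = A.card + Z.card := by rw [← hU, card_union_of_disjoint hd]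
      rw [union_comm, hU] at h1
      omega
    · left
      obtain ⟨X, hXH, ⟨hX, hWX, hne⟩, hmin⟩ :=
        exists_min_set (fun X => G.Fam X ∧ W ⊆ X ∧ X ≠ W) (A := H)
          ⟨hH, hWH, fun h => hWeq h.symm⟩
      have hg := growth hW hX hWX (fun h => hne h.symm) (by
        intro K hK hWK hKX
        by_cases h : K = W
        · exact Or.inl h
        · exact Or.inr (hmin K hKX ⟨hK, hWK, h⟩))
      have hc1 : (X \ W).card + W.card = X.card := card_sdiff_add_card_eq_card hWX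
      have hc2 : (W \ Z).card < (X \ Z).card := by
        apply card_lt_card
        refine ⟨sdiff_subset_sdiff hWX (subset_refl _), ?_⟩
        intro h
        apply hne
        apply subset_antisymm _ hWX
        intro x hx
        by_cases hxZ : x ∈ Z
        · exact hZW hxZ
        · exact (mem_sdiff.1 (h (mem_sdiff.2 ⟨hx, hxZ⟩))).1
      refine ⟨insert (X \ Z).card D, X, ?_, ?_, hZW.trans hWX, hXH, hX, by omega⟩
      · rw [card_insert_of_notMem, hD]
        intro h
        have := (hDs _ h).1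
        omega
      · intro s hs
        rw [mem_insert] at hs
        rcases hs with rfl | hs
        · refine ⟨le_rfl, X \ Z, ?_, rfl, ?_⟩
          · intro x hx
            have : x ∈ H := hXH (mem_sdiff.1 hx).1
            rw [← hU] at this
            grind
          · rw [union_sdiff_of_subset (hZW.trans hWX)]; exact hX
        · exact ⟨(hDs s hs).1.trans hc2.le, (hDs s hs).2⟩

lemma density {H A Z : Finset V} (hH : G.Fam H) (hd : Disjoint A Z) (hU : A ∪ Z = H)
    (hZ : Z.Nonempty) (he : G.e A Z ≤ 1) (r : ℕ) (hr : r < A.card) :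
    ∃ D : Finset ℕ, D.card = (r + 1) / 2 + 1 ∧
      ∀ s ∈ D, s ≤ r ∧ ∃ S, S ⊆ A ∧ S.card = s ∧ G.Fam (Z ∪ S) := by
  have hA : A.Nonempty := by rw [← card_pos]; omega
  rcases density_aux hH hd hU hA hZ he ((r + 1) / 2) with ⟨D, W, hD, hDs, hZW, hWH, hW, hphi⟩ | h
  swap
  · omega
  refine ⟨D, hD, fun s hs => ⟨?_, (hDs s hs).2⟩⟩
  have h1 := (hDs s hs).1
  by_cases hne : (W \ Z).Nonempty
  · have h2 : G.d Z + 1 ≤ G.d (Z ∪ (W \ Z)) := d_gt hd he (by
      intro x hx
      have : x ∈ H := hWH (mem_sdiff.1 hx).1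
      rw [← hU] at this
      grind) hne hZ
    rw [union_sdiff_of_subset hZW] at h2
    have h3 : (W \ Z).card + Z.card = W.card := card_sdiff_add_card_eq_card hZW
    omega
  · rw [not_nonempty_iff_eq_empty] at hne
    rw [hne] at h1
    simp at h1
    omega

lemma bridge_lemma {H A1 A2 : Finset V} (hH : G.Fam H) (hd : Disjoint A1 A2) (hU : A1 ∪ A2 = H)
    (he : G.e A1 A2 ≤ 1) (n : ℕ) (hn : 1 ≤ n) (h1 : n < A1.card) (h2 : n < A2.card) :
    ∃ W, G.Fam W ∧ W.card = n := by
  have hA1 : A1.Nonempty := by rw [← card_pos]; omega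
  have hA2 : A2.Nonempty := by rw [← card_pos]; omega
  have he' : G.e A2 A1 ≤ 1 := by rw [e_comm]; exact he
  obtain ⟨D1, hD1, hD1s⟩ := density hH hd hU hA2 he n h1
  obtain ⟨D2, hD2, hD2s⟩ := density hH hd.symm (by rw [union_comm]; exact hU) hA1 he' n h2
  have hpig : ∃ s1 ∈ D1, ∃ s2 ∈ D2, s1 + s2 = n := by
    by_contra hcon
    push Not at hcon
    have h3 : (D2.image (fun s => n - s)).card = D2.card := by
      apply card_image_of_injOn
      intro a ha b hb hab
      have := (hD2s a ha).1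
      have := (hD2s b hb).1
      simp only at hab
      omega
    have h4 : Disjoint D1 (D2.image (fun s => n - s)) := by
      rw [Finset.disjoint_left]
      intro a ha ha'
      rw [mem_image] at ha'
      obtain ⟨b, hb, hab⟩ := ha'
      have := (hD2s b hb).1
      have := hcon a ha b hb
      omega
    have h5 : D1 ∪ (D2.image (fun s => n - s)) ⊆ range (n + 1) := by
      intro a ha
      rw [mem_union, mem_image] at ha
      rw [mem_range]
      rcases ha with ha | ⟨b, hb, hab⟩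
      · have := (hD1s a ha).1; omega
      · omega
    have h6 := card_le_card h5
    rw [card_union_of_disjoint h4, h3, hD1, hD2, card_range] at h6
    omega
  obtain ⟨s1, hs1, s2, hs2, hsum⟩ := hpig
  obtain ⟨-, S1, hS1, hc1, hF1⟩ := hD1s s1 hs1
  obtain ⟨-, S2, hS2, hc2, hF2⟩ := hD2s s2 hs2
  have hSd : Disjoint S1 S2 := (hd.mono_left hS1).mono_right hS2
  refine ⟨S1 ∪ S2, ⟨?_, ?_⟩, by rw [card_union_of_disjoint hSd, hc1, hc2, hsum]⟩
  · have hS1c : S1.Nonempty → G.conn S1 := fun h => conn_of_bridge (Z := A2) (hd.mono_left hS1)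
      (by rw [union_comm]; exact hF1.1) h ((G.e_mono hS1 (subset_refl _)).trans he)
    have hS2c : S2.Nonempty → G.conn S2 := fun h => conn_of_bridge (Z := A1) (hd.symm.mono_left hS2)
      (by rw [union_comm]; exact hF2.1) h ((G.e_mono hS2 (subset_refl _)).trans he')
    by_cases hn1 : S1.Nonempty
    · by_cases hn2 : S2.Nonempty
      · refine conn_union (hS1c hn1) (hS2c hn2) ?_
        have h3 : 1 ≤ G.e A2 S1 := hF1.1.2 A2 S1 (hd.symm.mono_right hS1) rfl hA2 hn1
        have h4 : 1 ≤ G.e A1 S2 := hF2.1.2 A1 S2 (hd.mono_right hS2) rfl hA1 hn2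
        have h5 : G.e A1 A2 = G.e S1 A2 + G.e (A1 \ S1) A2 := G.e_split_left hS1 _
        have h6 : G.e (A1 \ S1) S2 ≤ G.e (A1 \ S1) A2 := G.e_mono (subset_refl _) hS2
        have h7 : G.e A1 S2 = G.e S1 S2 + G.e (A1 \ S1) S2 := G.e_split_left hS1 _
        rw [e_comm G A2 S1] at h3
        omega
      · rw [not_nonempty_iff_eq_empty] at hn2
        rw [hn2, union_empty]; exact hS1c hn1
    · rw [not_nonempty_iff_eq_empty] at hn1
      rw [hn1, empty_union]
      apply hS2c
      rw [← card_pos]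
      rw [hn1, card_empty] at hc1
      omega
  · have h3 : (S1 ∪ S2)ᶜ = (A2 ∪ S1)ᶜ ∪ (A1 ∪ S2)ᶜ := by ext x; grind
    rw [h3]
    refine kc_union hF1.2 hF2.2 ?_
    obtain ⟨b, hb⟩ := hH.2.1
    rw [← hU] at hb
    exact ⟨b, by grind⟩

end Cub

end Run7.h672
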