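import Pool.Agent.Run7.h672.Final

open Finset

namespace Run7.h672

/-- connectedness of an induced subgraph, by cuts -/
lemma induce_connected_iff {V : Type*} (G : SimpleGraph V) (s : Set V) :
    (G.induce s).Connected ↔ s.Nonempty ∧
      ∀ P, P ⊆ s → P.Nonempty → (s \ P).Nonempty → ∃ a ∈ P, ∃ b ∈ s \ P, G.Adj a b := by
  constructor
  · intro h
    refine ⟨?_, ?_⟩
    · obtain ⟨x⟩ := h.nonempty
      exact ⟨x.1, x.2⟩
    · rintro P hP ⟨x, hx⟩ ⟨y, hy⟩
      obtain ⟨p⟩ := h.preconnected ⟨x, hP hx⟩ ⟨y, hy.1⟩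
      obtain ⟨d, -, hd1, hd2⟩ := p.exists_boundary_dart {z | z.1 ∈ P} hx hy.2
      exact ⟨d.fst.1, hd1, d.snd.1, ⟨d.snd.2, hd2⟩, d.adj⟩
  · rintro ⟨⟨u, hu⟩, h⟩
    rw [SimpleGraph.connected_iff_exists_forall_reachable]
    refine ⟨⟨u, hu⟩, ?_⟩
    by_contra hcon
    push Not at hcon
    obtain ⟨w, hw⟩ := hcon
    obtain ⟨a, ⟨ha, ha'⟩, b, ⟨hb, hb'⟩, hab⟩ :=
      h {x | ∃ hx : x ∈ s, (G.induce s).Reachable ⟨u, hu⟩ ⟨x, hx⟩}
      (fun x hx => hx.1) ⟨u, hu, SimpleGraph.Reachable.refl _⟩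
      ⟨w.1, w.2, fun ⟨_, h⟩ => hw h⟩
    apply hb'
    refine ⟨hb, ha'.trans (SimpleGraph.Adj.reachable ?_)⟩
    exact hab

section contraction

variable {V : Type*} [DecidableEq V]

/-- contracting `S` keeps 3-connectedness, given that deleting `S` and at most one more vertex
leaves a connected graph -/
lemma contract_ok (G : SimpleGraph V) (S : Finset V) (s0 : V) (hs0 : s0 ∈ S)
    (h3 : ∀ X : Finset V, X.card ≤ 2 → (G.induce ((↑X : Set V)ᶜ)).Connected)
    (h1 : ∀ X : Finset V, X.card ≤ 1 → (G.induce ((↑S : Set V)ᶜ \ (↑X : Set V))).Connected)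
    (X : Finset V) (hX : X.card ≤ 2) :
    ((SimpleGraph.fromRel (fun x y : V => ∃ a b, G.Adj a b ∧
      (if a ∈ S then s0 else a) = x ∧ (if b ∈ S then s0 else b) = y)).induce
        (insert s0 ((↑S : Set V)ᶜ) \ (↑X : Set V))).Connected := by
  by_cases hsX : s0 ∈ X
  · have hXc : (X.erase s0).card ≤ 1 := by
      rw [Finset.card_erase_of_mem hsX]; omega
    have hset : insert s0 ((↑S : Set V)ᶜ) \ (↑X : Set V) = (↑S : Set V)ᶜ \ (↑(X.erase s0) : Set V) := by
      ext x
      simp only [Set.mem_sdiff, Set.mem_insert_iff, Set.mem_compl_iff, Finset.mem_coe,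
        Finset.mem_erase, not_and]
      constructor
      · rintro ⟨h | h, h'⟩
        · exact (h' (h ▸ hsX)).elim
        · exact ⟨h, fun _ => h'⟩
      · rintro ⟨h, h'⟩
        refine ⟨Or.inr h, ?_⟩
        intro hx
        exact h' (by rintro rfl; exact h hs0) hx
    have h2 := h1 (X.erase s0) hXc
    rw [hset]
    rw [induce_connected_iff] at h2 ⊢
    refine ⟨h2.1, ?_⟩
    intro P hP hPn hPn'
    obtain ⟨a, ha, b, hb, hab⟩ := h2.2 P hP hPn hPn'
    refine ⟨a, ha, b, hb, ?_⟩
    rw [SimpleGraph.fromRel_adj]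
    refine ⟨hab.ne, Or.inl ⟨a, b, hab, ?_, ?_⟩⟩
    · have : a ∉ S := fun h => (hP ha).1 h
      simp [this]
    · have : b ∉ S := fun h => hb.1.1 h
      simp [this]
  · rw [induce_connected_iff]
    refine ⟨⟨s0, ?_⟩, ?_⟩
    · exact ⟨Set.mem_insert _ _, hsX⟩
    · intro P hP hPn hPn'
      have hX'c : (X \ S).card ≤ 2 := (Finset.card_le_card Finset.sdiff_subset).trans hX
      have h2 := h3 (X \ S) hX'c
      rw [induce_connected_iff] at h2
      obtain ⟨a, ha, b, hb, hab⟩ := h2.2 {x | x ∉ X \ S ∧ (if x ∈ S then s0 else x) ∈ P}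
        (by
          intro x hx
          simpa using hx.1)
        (by
          obtain ⟨x, hx⟩ := hPn
          have hxs := hP hx
          refine ⟨x, ?_, ?_⟩
          · intro h
            exact hxs.2 (Finset.mem_sdiff.1 h).1
          · rcases hxs.1 with h | h
            · rw [h]; simp only [hs0, if_true]; rw [← h]; exact hx
            · have : x ∉ S := h
              simp only [this, if_false]; exact hx)
        (by
          obtain ⟨x, hx, hxP⟩ := hPn'
          refine ⟨x, ?_, ?_⟩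
          · intro h
            rw [Finset.mem_coe] at h
            exact hx.2 (Finset.mem_sdiff.1 h).1
          · rintro ⟨-, h⟩
            apply hxP
            rcases hx.1 with h' | h'
            · rw [h'] at h ⊢; simpa only [hs0, if_true] using h
            · have : x ∉ S := h'
              simpa only [this, if_false] using h)
      obtain ⟨hbX, hbP⟩ := hb
      have hbX' : b ∉ X \ S := fun h => hbX (by exact_mod_cast h)
      have hbP' : (if b ∈ S then s0 else b) ∉ P := fun h => hbP ⟨hbX', h⟩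
      refine ⟨if a ∈ S then s0 else a, ha.2, if b ∈ S then s0 else b, ⟨⟨?_, ?_⟩, hbP'⟩, ?_⟩
      · by_cases hbS : b ∈ S
        · simp [hbS]
        · simp only [hbS, if_false]; right; exact hbS
      · by_cases hbS : b ∈ S
        · simp only [hbS, if_true]; exact hsX
        · simp only [hbS, if_false]
          intro h
          exact hbX' (Finset.mem_sdiff.2 ⟨h, hbS⟩)
      · rw [SimpleGraph.fromRel_adj]
        refine ⟨?_, Or.inl ⟨a, b, hab, rfl, rfl⟩⟩
        intro h
        apply hbP'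
        rw [← h]; exact ha.2

end contraction

section cubic

variable {V : Type*} [Fintype V] [DecidableEq V]

/-- edge count of a simple graph between two finsets -/
noncomputable def wt (G : SimpleGraph V) (a b : V) : ℕ := by
  classical exact if G.Adj a b then 1 else 0

lemma wt_eq (G : SimpleGraph V) (a b : V) [Decidable (G.Adj a b)] :
    wt G a b = if G.Adj a b then 1 else 0 := by
  unfold wt; congr

lemma wt_symm (G : SimpleGraph V) (a b : V) : wt G a b = wt G b a := by
  classical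
  rw [wt_eq, wt_eq]; simp [G.adj_comm]

lemma wt_loop (G : SimpleGraph V) (a : V) : wt G a a = 0 := by
  classical
  rw [wt_eq]; simp

lemma wt_le_one (G : SimpleGraph V) (a b : V) : wt G a b ≤ 1 := by
  classical
  rw [wt_eq]; split <;> omega

lemma wt_pos (G : SimpleGraph V) (a b : V) : 0 < wt G a b ↔ G.Adj a b := by
  classical
  rw [wt_eq]; split <;> simp_all

lemma wt_sum (G : SimpleGraph V) (a : V) : ∑ c, wt G a c = (G.neighborSet a).ncard := by
  classical
  have h1 : ∀ c, wt G a c = if c ∈ G.neighborFinset a then 1 else 0 := by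
    intro c; rw [wt_eq]; simp
  simp_rw [h1]
  rw [Finset.sum_ite_mem, Finset.univ_inter, Finset.sum_const, smul_eq_mul, mul_one,
    Set.ncard_eq_toFinset_card', SimpleGraph.neighborFinset]

/-- 3-connected cubic graphs are 3-edge-connected -/
lemma three_edge (G : SimpleGraph V) (hcub : ∀ v, (G.neighborSet v).ncard = 3)
    (h3 : ∀ X : Finset V, X.card ≤ 2 → (G.induce ((↑X : Set V)ᶜ)).Connected)
    (A : Finset V) (hA : A.Nonempty) (hA' : Aᶜ.Nonempty) :
    3 ≤ ∑ a ∈ A, ∑ c ∈ Aᶜ, wt G a c := by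
  by_cases hcard : A.card ≤ 2
  · have h1 : ∑ a ∈ A, ∑ c, wt G a c = 3 * A.card := by
      simp_rw [wt_sum, hcub]; simp [mul_comm]
    have h2 : ∑ a ∈ A, ∑ c, wt G a c = ∑ a ∈ A, ∑ c ∈ A, wt G a c + ∑ a ∈ A, ∑ c ∈ Aᶜ, wt G a c := by
      rw [← Finset.sum_add_distrib]
      exact Finset.sum_congr rfl fun a _ => (Finset.sum_add_sum_compl A _).symm
    have h4 : ∑ a ∈ A, ∑ c ∈ A, wt G a c ≤ A.card * (A.card - 1) := by
      have h5 : ∀ a ∈ A, ∑ c ∈ A, wt G a c ≤ A.card - 1 := by
        intro a ha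
        rw [← Finset.sum_erase_add A _ ha, wt_loop, add_zero]
        calc ∑ c ∈ A.erase a, wt G a c ≤ ∑ c ∈ A.erase a, 1 :=
              Finset.sum_le_sum fun c _ => wt_le_one G a c
          _ = A.card - 1 := by rw [Finset.sum_const, smul_eq_mul, mul_one, Finset.card_erase_of_mem ha]
      calc ∑ a ∈ A, ∑ c ∈ A, wt G a c ≤ ∑ a ∈ A, (A.card - 1) := Finset.sum_le_sum h5
        _ = A.card * (A.card - 1) := by simp
    have h5 : 0 < A.card := hA.card_pos
    interval_cases A.card <;> omega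
  · by_contra hcon
    push Not at hcon
    classical
    obtain ⟨X, hX⟩ : ∃ X, X = A.filter (fun a => 0 < ∑ c ∈ Aᶜ, wt G a c) := ⟨_, rfl⟩
    have hXc : X.card ≤ ∑ a ∈ A, ∑ c ∈ Aᶜ, wt G a c := by
      calc X.card = ∑ a ∈ X, 1 := by simp
        _ ≤ ∑ a ∈ X, ∑ c ∈ Aᶜ, wt G a c := by
            apply Finset.sum_le_sum
            intro a ha
            rw [hX, Finset.mem_filter] at ha
            exact ha.2
        _ ≤ ∑ a ∈ A, ∑ c ∈ Aᶜ, wt G a c :=
            Finset.sum_le_sum_of_subset (by rw [hX]; exact Finset.filter_subset _ _)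
    have h2 := h3 X (by omega)
    rw [induce_connected_iff] at h2
    have hXA : X ⊆ A := by rw [hX]; exact Finset.filter_subset _ _
    have hne : (A \ X).Nonempty := by
      rw [← Finset.card_pos]
      have := Finset.card_sdiff_add_card_eq_card hXA
      omega
    obtain ⟨a, ha, b, hb, hab⟩ := h2.2 (↑(A \ X) : Set V)
      (by
        intro x hx
        simp only [Finset.coe_sdiff, Set.mem_sdiff, Finset.mem_coe] at hx
        simpa using hx.2)
      (by exact_mod_cast hne)
      (by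
        obtain ⟨y, hy⟩ := hA'
        rw [Finset.mem_compl] at hy
        refine ⟨y, ?_, ?_⟩
        · simp only [Set.mem_compl_iff, Finset.mem_coe]
          exact fun h => hy (hXA h)
        · simp only [Finset.coe_sdiff, Set.mem_sdiff, Finset.mem_coe, not_and, not_not]
          exact fun h => (hy h).elim)
    simp only [Finset.coe_sdiff, Set.mem_sdiff, Finset.mem_coe, Set.mem_compl_iff, not_and,
      not_not] at ha hb
    have hbA : b ∉ A := fun h => hb.1 (hb.2 h)
    apply ha.2
    rw [hX, Finset.mem_filter]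
    refine ⟨ha.1, ?_⟩
    calc 0 < wt G a b := (wt_pos G a b).2 hab
      _ ≤ ∑ c ∈ Aᶜ, wt G a c := Finset.single_le_sum (f := fun c => wt G a c)
        (fun _ _ => Nat.zero_le _) (Finset.mem_compl.2 hbA)

/-- the cubic structure of a 3-connected cubic simple graph -/
noncomputable def toCub (G : SimpleGraph V) (hcub : ∀ v, (G.neighborSet v).ncard = 3)
    (h3 : ∀ X : Finset V, X.card ≤ 2 → (G.induce ((↑X : Set V)ᶜ)).Connected) : Cub V where
  w := wt G
  symm := wt_symm G
  loop := wt_loop G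
  deg := fun a => by rw [wt_sum, hcub]
  three := three_edge G hcub h3

lemma induce_of_conn (G : SimpleGraph V) (hcub : ∀ v, (G.neighborSet v).ncard = 3)
    (h3 : ∀ X : Finset V, X.card ≤ 2 → (G.induce ((↑X : Set V)ᶜ)).Connected) (A : Finset V)
    (hA : (toCub G hcub h3).conn A) : (G.induce (↑A : Set V)).Connected := by
  classical
  rw [induce_connected_iff]
  refine ⟨by exact_mod_cast hA.1, ?_⟩
  intro P hP hPn hPn'
  obtain ⟨Q, hQ⟩ : ∃ Q : Finset V, Q = A.filter (fun x => x ∈ P) := ⟨_, rfl⟩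
  have hQP : ∀ x, x ∈ Q ↔ x ∈ P := by
    intro x
    rw [hQ, Finset.mem_filter]
    exact ⟨fun h => h.2, fun h => ⟨by exact_mod_cast hP h, h⟩⟩
  have h1 := hA.cut (S := Q) (by rw [hQ]; exact Finset.filter_subset _ _)
    (by obtain ⟨x, hx⟩ := hPn; exact ⟨x, (hQP x).2 hx⟩)
    (by
      obtain ⟨x, hx, hx'⟩ := hPn'
      exact ⟨x, Finset.mem_sdiff.2 ⟨by exact_mod_cast hx, fun h => hx' ((hQP x).1 h)⟩⟩)
  obtain ⟨a, ha, b, hb, hw⟩ := (Cub.e_pos _).1 (show 0 < (toCub G hcub h3).e Q (A \ Q) by omega)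
  obtain ⟨hbA, hbQ⟩ := Finset.mem_sdiff.1 hb
  exact ⟨a, (hQP a).1 ha, b, ⟨by exact_mod_cast hbA, fun h => hbQ ((hQP b).2 h)⟩,
    (wt_pos G a b).1 hw⟩

end cubic

/-- the conjecture for cubic graphs -/
theorem cubic_main (n : ℕ) (hn : 1 ≤ n) : ∃ N : ℕ, ∀ (V : Type) [Fintype V] [DecidableEq V]
    (G : SimpleGraph V), N ≤ Fintype.card V → (∀ v, (G.neighborSet v).ncard = 3) →
    (4 ≤ Fintype.card V ∧ ∀ X : Finset V, X.card ≤ 2 → (G.induce ((↑X : Set V)ᶜ)).Connected) →
    ∃ S : Finset V, ∃ s0 ∈ S, S.card = n ∧ (G.induce (↑S : Set V)).Connected ∧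
      (4 ≤ (insert s0 ((↑S : Set V)ᶜ)).ncard ∧
        ∀ X : Finset V, X.card ≤ 2 →
          ((SimpleGraph.fromRel (fun x y : V => ∃ a b, G.Adj a b ∧
              (if a ∈ S then s0 else a) = x ∧ (if b ∈ S then s0 else b) = y)).induce
            (insert s0 ((↑S : Set V)ᶜ) \ (↑X : Set V))).Connected) := by
  refine ⟨max (Cub.cN n) (n + 3), ?_⟩
  intro V _ _ G hN hcub h4
  obtain ⟨h4, h3⟩ := h4
  obtain ⟨S, ⟨hS, hSt⟩, hSn⟩ := Cub.main_cub hn (toCub G hcub h3) ((le_max_left _ _).trans hN)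
  obtain ⟨s0, hs0⟩ := hS.1
  have hSc : S.card + Sᶜ.card = Fintype.card V := Finset.card_add_card_compl S
  have hSc3 : 3 ≤ Sᶜ.card := by
    have := (le_max_right (Cub.cN n) (n + 3)).trans hN
    omega
  refine ⟨S, s0, hs0, hSn, induce_of_conn G hcub h3 S hS, ?_, ?_⟩
  · have h5 : (insert s0 ((↑S : Set V)ᶜ)) = (↑(insert s0 Sᶜ : Finset V) : Set V) := by
      rw [Finset.coe_insert, Finset.coe_compl]
    rw [h5, Set.ncard_coe_finset, Finset.card_insert_of_notMem (by simpa using hs0)]
    omega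
  · refine contract_ok G S s0 hs0 h3 ?_
    intro X hX
    have h6 : ((↑S : Set V)ᶜ \ (↑X : Set V)) = (↑(Sᶜ \ X : Finset V) : Set V) := by
      rw [Finset.coe_sdiff, Finset.coe_compl]
    rw [h6]
    apply induce_of_conn G hcub h3
    by_cases hd : Disjoint Sᶜ X
    · rw [Finset.sdiff_eq_self_of_disjoint hd]
      exact Cub.tec.conn hSt
    · rw [Finset.not_disjoint_iff] at hd
      obtain ⟨q, hq, hqX⟩ := hd
      have h7 : X = {q} := by
        have := Finset.card_le_one.1 hX
        ext x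
        rw [Finset.mem_singleton]
        exact ⟨fun h => this x h q hqX, fun h => h ▸ hqX⟩
      rw [h7]
      refine Cub.conn_erase hSt hq ?_
      rw [← Finset.card_pos]
      have := Finset.card_sdiff_add_card_eq_card (show {q} ⊆ Sᶜ by simpa using hq)
      rw [Finset.card_singleton] at this
      omega

end Run7.h672
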