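import Mathlib

open Finset

namespace Run7.h672

/-- A loopless multigraph on `V`, given by edge multiplicities `w`, that is cubic and
3-edge-connected. -/
structure Cub (V : Type*) [Fintype V] [DecidableEq V] where
  w : V → V → ℕ
  symm : ∀ a b, w a b = w b a
  loop : ∀ a, w a a = 0
  deg : ∀ a, ∑ c, w a c = 3
  three : ∀ A : Finset V, A.Nonempty → Aᶜ.Nonempty → 3 ≤ ∑ a ∈ A, ∑ c ∈ Aᶜ, w a c

namespace Cub

variable {V : Type*} [Fintype V] [DecidableEq V] (G : Cub V)

/-- number of edges between `A` and `C` -/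
def e (A C : Finset V) : ℕ := ∑ a ∈ A, ∑ c ∈ C, G.w a c

lemma e_comm (A C : Finset V) : G.e A C = G.e C A := by
  unfold e
  rw [Finset.sum_comm]
  exact Finset.sum_congr rfl fun c _ => Finset.sum_congr rfl fun a _ => G.symm a c

@[simp] lemma e_empty_left (C : Finset V) : G.e ∅ C = 0 := by simp [e]
@[simp] lemma e_empty_right (C : Finset V) : G.e C ∅ = 0 := by simp [e]

lemma e_union_left {A B : Finset V} (h : Disjoint A B) (C : Finset V) :
    G.e (A ∪ B) C = G.e A C + G.e B C := Finset.sum_union h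

lemma e_union_right {A B : Finset V} (h : Disjoint A B) (C : Finset V) :
    G.e C (A ∪ B) = G.e C A + G.e C B := by
  rw [e_comm, e_union_left G h, e_comm G A, e_comm G B]

lemma e_mono {A B C D : Finset V} (h : A ⊆ B) (h' : C ⊆ D) : G.e A C ≤ G.e B D := by
  unfold e
  calc ∑ a ∈ A, ∑ c ∈ C, G.w a c ≤ ∑ a ∈ A, ∑ c ∈ D, G.w a c :=
        Finset.sum_le_sum fun a _ => Finset.sum_le_sum_of_subset h'
    _ ≤ ∑ a ∈ B, ∑ c ∈ D, G.w a c := Finset.sum_le_sum_of_subset h

/-- split the left argument along a subset -/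
lemma e_split_left {S A : Finset V} (h : S ⊆ A) (C : Finset V) :
    G.e A C = G.e S C + G.e (A \ S) C := by
  rw [← e_union_left G disjoint_sdiff, union_sdiff_of_subset h]

lemma e_split_right {S A : Finset V} (h : S ⊆ A) (C : Finset V) :
    G.e C A = G.e C S + G.e C (A \ S) := by
  rw [← e_union_right G disjoint_sdiff, union_sdiff_of_subset h]

lemma e_univ (A : Finset V) : G.e A univ = 3 * A.card := by
  unfold e
  simp [G.deg, mul_comm]

lemma e_single_univ (a : V) : G.e {a} univ = 3 := by simp [e_univ]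

lemma e_le (A C : Finset V) : G.e A C ≤ 3 * A.card := by
  rw [← G.e_univ]; exact G.e_mono (subset_refl _) (subset_univ _)

lemma e_single_le (a : V) (C : Finset V) : G.e {a} C ≤ 3 := by
  have := G.e_le {a} C; simpa using this

lemma e_single_self (a : V) : G.e {a} {a} = 0 := by simp [e, G.loop]

lemma e_pos {A C : Finset V} : 0 < G.e A C ↔ ∃ a ∈ A, ∃ c ∈ C, 0 < G.w a c := by
  unfold e
  constructor
  · intro h
    by_contra hcon
    push Not at hcon
    have : ∑ a ∈ A, ∑ c ∈ C, G.w a c = 0 :=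
      Finset.sum_eq_zero fun a ha => Finset.sum_eq_zero fun c hc => by
        have := hcon a ha c hc; omega
    omega
  · rintro ⟨a, ha, c, hc, hw⟩
    calc 0 < G.w a c := hw
      _ ≤ ∑ c ∈ C, G.w a c := Finset.single_le_sum (f := fun c => G.w a c) (fun _ _ => Nat.zero_le _) hc
      _ ≤ _ := Finset.single_le_sum (f := fun a => ∑ c ∈ C, G.w a c) (fun _ _ => Nat.zero_le _) ha

/-- the boundary size -/
def d (A : Finset V) : ℕ := G.e A Aᶜ

lemma three_le_d {A : Finset V} (h : A.Nonempty) (h' : Aᶜ.Nonempty) : 3 ≤ G.d A := G.three A h h'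

lemma d_compl (A : Finset V) : G.d Aᶜ = G.d A := by
  unfold d; rw [compl_compl, e_comm]

/-- handshake parity -/
lemma even_e_self (A : Finset V) : Even (G.e A A) := by
  induction A using Finset.induction_on with
  | empty => simp
  | insert a s ha ih =>
    have h1 : insert a s = {a} ∪ s := rfl
    have hd : Disjoint ({a} : Finset V) s := by simpa using ha
    rw [h1, e_union_left G hd, e_union_right G hd, e_union_right G hd, e_single_self, e_comm G s {a}]
    have : 0 + G.e {a} s + (G.e {a} s + G.e s s) = 2 * G.e {a} s + G.e s s := by ring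
    rw [this]
    exact (even_two_mul _).add ih

/-- `k`-edge-connectedness of an induced set, by cuts -/
def kc (k : ℕ) (A : Finset V) : Prop :=
  A.Nonempty ∧ ∀ S T : Finset V, Disjoint S T → S ∪ T = A → S.Nonempty → T.Nonempty → k ≤ G.e S T

abbrev conn (A : Finset V) : Prop := G.kc 1 A
abbrev tec (A : Finset V) : Prop := G.kc 2 A

variable {G}

lemma kc.mono {k l : ℕ} (h : k ≤ l) {A : Finset V} (hA : G.kc l A) : G.kc k A :=
  ⟨hA.1, fun S T h1 h2 h3 h4 => h.trans (hA.2 S T h1 h2 h3 h4)⟩

lemma tec.conn {A : Finset V} (hA : G.tec A) : G.conn A := kc.mono (by norm_num) hA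

/-- cut inequality with a subset -/
lemma kc.cut {k : ℕ} {A S : Finset V} (hA : G.kc k A) (hS : S ⊆ A) (h1 : S.Nonempty)
    (h2 : (A \ S).Nonempty) : k ≤ G.e S (A \ S) :=
  hA.2 S (A \ S) disjoint_sdiff (union_sdiff_of_subset hS) h1 h2

lemma kc_singleton (k : ℕ) (a : V) : G.kc k {a} := by
  refine ⟨singleton_nonempty a, ?_⟩
  intro S T hST hU hS hT
  exfalso
  obtain ⟨s, hs⟩ := hS
  obtain ⟨t, ht⟩ := hT
  have h1 : s ∈ ({a} : Finset V) := hU ▸ mem_union_left _ hs
  have h2 : t ∈ ({a} : Finset V) := hU ▸ mem_union_right _ ht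
  rw [mem_singleton] at h1 h2
  subst h1; subst h2
  exact (Finset.disjoint_left.1 hST hs ht)

lemma kc_union {k : ℕ} {A B : Finset V} (hA : G.kc k A) (hB : G.kc k B) (h : (A ∩ B).Nonempty) :
    G.kc k (A ∪ B) := by
  refine ⟨hA.1.mono subset_union_left, ?_⟩
  intro S T hST hU hS hT
  by_cases h1 : (S ∩ A).Nonempty ∧ (T ∩ A).Nonempty
  · have := hA.2 (S ∩ A) (T ∩ A) (hST.mono inter_subset_left inter_subset_left)
      (by rw [← union_inter_distrib_right, hU]; simp) h1.1 h1.2
    exact this.trans (G.e_mono inter_subset_left inter_subset_left)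
  by_cases h2 : (S ∩ B).Nonempty ∧ (T ∩ B).Nonempty
  · have := hB.2 (S ∩ B) (T ∩ B) (hST.mono inter_subset_left inter_subset_left)
      (by rw [← union_inter_distrib_right, hU]; simp) h2.1 h2.2
    exact this.trans (G.e_mono inter_subset_left inter_subset_left)
  exfalso
  obtain ⟨x, hx⟩ := h
  obtain ⟨s, hs⟩ := hS
  obtain ⟨t, ht⟩ := hT
  have hxU : x ∈ S ∪ T := by rw [hU]; exact mem_union_left _ (mem_inter.1 hx).1
  have hsU : s ∈ A ∪ B := by rw [← hU]; exact mem_union_left _ hs
  have htU : t ∈ A ∪ B := by rw [← hU]; exact mem_union_right _ ht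
  simp only [Finset.Nonempty, mem_inter, mem_union] at *
  grind

lemma kc_add {k : ℕ} {A B : Finset V} (hB : G.kc k B)
    (h : ∀ T ⊆ A, T.Nonempty → k ≤ G.e T ((B ∪ A) \ T)) : G.kc k (B ∪ A) := by
  refine ⟨hB.1.mono subset_union_left, ?_⟩
  intro S T hST hU hS hT
  by_cases h1 : (S ∩ B).Nonempty ∧ (T ∩ B).Nonempty
  · have := hB.2 (S ∩ B) (T ∩ B) (hST.mono inter_subset_left inter_subset_left)
      (by rw [← union_inter_distrib_right, hU]; simp) h1.1 h1.2
    exact this.trans (G.e_mono inter_subset_left inter_subset_left)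
  have hS' : S = (B ∪ A) \ T := by
    rw [← hU]; ext x; simp only [mem_sdiff, mem_union]
    have := (Finset.disjoint_left.1 hST) (a := x)
    tauto
  have hT' : T = (B ∪ A) \ S := by
    rw [← hU]; ext x; simp only [mem_sdiff, mem_union]
    have := (Finset.disjoint_left.1 hST) (a := x)
    tauto
  by_cases h2 : (T ∩ B).Nonempty
  · have h3 : ¬ (S ∩ B).Nonempty := fun h => h1 ⟨h, h2⟩
    have hSA : S ⊆ A := by
      intro x hx
      have hx' : x ∈ B ∪ A := by rw [← hU]; exact mem_union_left _ hx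
      rcases mem_union.1 hx' with hb | ha
      · exact (h3 ⟨x, mem_inter.2 ⟨hx, hb⟩⟩).elim
      · exact ha
    have := h S hSA hS
    rwa [← hT'] at this
  · have hTA : T ⊆ A := by
      intro x hx
      have hx' : x ∈ B ∪ A := by rw [← hU]; exact mem_union_right _ hx
      rcases mem_union.1 hx' with hb | ha
      · exact (h2 ⟨x, mem_inter.2 ⟨hx, hb⟩⟩).elim
      · exact ha
    have := h T hTA hT
    rw [← hS'] at this
    rwa [G.e_comm]

lemma conn_union {A B : Finset V} (hA : G.conn A) (hB : G.conn B)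
    (h : 0 < G.e A B) : G.conn (A ∪ B) := by
  refine ⟨hA.1.mono subset_union_left, ?_⟩
  intro S T hST hU hS hT
  by_cases h1 : (S ∩ A).Nonempty ∧ (T ∩ A).Nonempty
  · have := hA.2 (S ∩ A) (T ∩ A) (hST.mono inter_subset_left inter_subset_left)
      (by rw [← union_inter_distrib_right, hU]; simp) h1.1 h1.2
    exact this.trans (G.e_mono inter_subset_left inter_subset_left)
  by_cases h2 : (S ∩ B).Nonempty ∧ (T ∩ B).Nonempty
  · have := hB.2 (S ∩ B) (T ∩ B) (hST.mono inter_subset_left inter_subset_left)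
      (by rw [← union_inter_distrib_right, hU]; simp) h2.1 h2.2
    exact this.trans (G.e_mono inter_subset_left inter_subset_left)
  -- now {S,T} = {A,B}
  have hcase : (A ⊆ S ∧ B ⊆ T) ∨ (A ⊆ T ∧ B ⊆ S) := by
    obtain ⟨a, ha⟩ := hA.1
    obtain ⟨b, hb⟩ := hB.1
    obtain ⟨s, hs⟩ := hS
    obtain ⟨t, ht⟩ := hT
    have hsU : s ∈ A ∪ B := by rw [← hU]; exact mem_union_left _ hs
    have htU : t ∈ A ∪ B := by rw [← hU]; exact mem_union_right _ ht
    have hAll : ∀ x, x ∈ A ∪ B → x ∈ S ∪ T := fun x hx => by rw [hU]; exact hx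
    simp only [Finset.Nonempty, mem_inter, mem_union, Finset.subset_iff] at *
    grind
  rcases hcase with ⟨h3, h4⟩ | ⟨h3, h4⟩
  · exact h.trans_le (G.e_mono h3 h4)
  · rw [G.e_comm S T]; exact h.trans_le (G.e_mono h3 h4)

/-- a set with a bridge: each side is connected -/
lemma conn_of_bridge {A Z : Finset V} (hd : Disjoint A Z) (h : G.conn (A ∪ Z)) (hA : A.Nonempty)
    (he : G.e A Z ≤ 1) : G.conn A := by
  refine ⟨hA, ?_⟩
  intro S T hST hU hS hT
  by_contra hcon
  have h0 : G.e S T = 0 := by omega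
  have hSd : Disjoint S Z := hd.mono_left (hU ▸ subset_union_left)
  have hTd : Disjoint T Z := hd.mono_left (hU ▸ subset_union_right)
  have h1 := h.2 S (T ∪ Z) (disjoint_union_right.2 ⟨hST, hSd⟩) (by rw [← hU, union_assoc]) hS
    (hT.mono subset_union_left)
  have h2 := h.2 T (S ∪ Z) (disjoint_union_right.2 ⟨hST.symm, hTd⟩)
    (by rw [← hU, ← union_assoc, union_comm T S]) hT (hS.mono subset_union_left)
  rw [G.e_union_right hTd] at h1
  rw [G.e_union_right hSd, G.e_comm T S] at h2
  have h3 : G.e A Z = G.e S Z + G.e T Z := by rw [← hU, G.e_union_left hST]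
  omega

/-- removing a vertex from a 2-edge-connected set leaves it connected -/
lemma conn_erase {M : Finset V} {q : V} (hM : G.tec M) (hq : q ∈ M) (hne : (M \ {q}).Nonempty) :
    G.conn (M \ {q}) := by
  refine ⟨hne, ?_⟩
  intro S T hST hU hS hT
  by_contra hcon
  have h0 : G.e S T = 0 := by omega
  have hqS : Disjoint S {q} := by
    rw [Finset.disjoint_singleton_right]; intro h
    have : q ∈ M \ {q} := hU ▸ mem_union_left _ h
    simp at this
  have hqT : Disjoint T {q} := by
    rw [Finset.disjoint_singleton_right]; intro h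
    have : q ∈ M \ {q} := hU ▸ mem_union_right _ h
    simp at this
  have hMeq : M = S ∪ (T ∪ {q}) := by
    rw [← union_assoc, hU]; ext x; simp only [mem_union, mem_sdiff, mem_singleton]
    constructor
    · intro hx; tauto
    · rintro (h | h); exact h.1; exact h ▸ hq
  have h1 := hM.2 S (T ∪ {q}) (disjoint_union_right.2 ⟨hST, hqS⟩) hMeq.symm hS
    (hT.mono subset_union_left)
  have h2 := hM.2 T (S ∪ {q}) (disjoint_union_right.2 ⟨hST.symm, hqT⟩)
    (by rw [hMeq, ← union_assoc, ← union_assoc, union_comm T S]) hT (hS.mono subset_union_left)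
  rw [G.e_union_right hqT] at h1
  rw [G.e_union_right hqS, G.e_comm T S] at h2
  have h3 : G.e {q} (S ∪ T) = G.e S {q} + G.e T {q} := by
    rw [G.e_union_right hST, G.e_comm {q} S, G.e_comm {q} T]
  have h4 := G.e_single_le q (S ∪ T)
  omega

end Cub

end Run7.h672
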