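import Pool.Agent.Run7.h672.TwoPath

open Finset

namespace Run7.h672

variable {V : Type*} [Fintype V] [DecidableEq V]

attribute [local grind =] Finset.mem_compl Finset.disjoint_left

namespace Cub

variable {G : Cub V}

/-- closed neighbourhood of a set -/
def nb (G : Cub V) (S : Finset V) : Finset V := univ.filter (fun x => x ∈ S ∨ 0 < G.e {x} S)

lemma subset_nb (S : Finset V) : S ⊆ G.nb S := by
  intro x hx; simp [nb, hx]

lemma card_nb_le (S : Finset V) : (G.nb S).card ≤ 4 * S.card := by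
  have h1 : (G.nb S \ S).card ≤ G.e (G.nb S \ S) S := by
    unfold e
    rw [card_eq_sum_ones]
    apply sum_le_sum
    intro x hx
    obtain ⟨hx1, hx2⟩ := mem_sdiff.1 hx
    simp only [nb, mem_filter, mem_univ, true_and] at hx1
    rcases hx1 with h | h
    · exact (hx2 h).elim
    · have : G.e {x} S = ∑ c ∈ S, G.w x c := by simp [e]
      omega
  have h2 := G.e_le S (G.nb S \ S)
  rw [e_comm] at h2
  have h3 : (G.nb S \ S).card + S.card = (G.nb S).card :=
    card_sdiff_add_card_eq_card (subset_nb S)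
  omega

/-- ball around a set -/
def ball (G : Cub V) (S : Finset V) : ℕ → Finset V
  | 0 => S
  | r + 1 => G.nb (G.ball S r)

lemma card_ball_le (S : Finset V) (r : ℕ) : (G.ball S r).card ≤ 4 ^ r * S.card := by
  induction r with
  | zero => simp [ball]
  | succ r ih =>
    calc (G.ball S (r + 1)).card ≤ 4 * (G.ball S r).card := card_nb_le _
      _ ≤ 4 * (4 ^ r * S.card) := by gcongr
      _ = 4 ^ (r + 1) * S.card := by ring

lemma subset_ball (S : Finset V) (r : ℕ) : S ⊆ G.ball S r := by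
  induction r with
  | zero => exact subset_refl _
  | succ r ih => exact ih.trans (subset_nb _)

lemma ball_conn {S C : Finset V} (hS : S.Nonempty) (hC : G.conn C) (h : S ⊆ C) (r : ℕ) :
    C ⊆ G.ball S r ∨ r + 1 ≤ (C ∩ G.ball S r).card := by
  induction r with
  | zero =>
    right
    have : 0 < (C ∩ G.ball S 0).card := by
      rw [card_pos]
      obtain ⟨s, hs⟩ := hS
      exact ⟨s, mem_inter.2 ⟨h hs, hs⟩⟩
    omega
  | succ r ih =>
    rcases ih with ih | ih
    · left; exact ih.trans (subset_nb _)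
    · by_cases hsub : C ⊆ G.ball S r
      · left; exact hsub.trans (subset_nb _)
      · right
        obtain ⟨x, hx, hx'⟩ := Finset.not_subset.1 hsub
        obtain ⟨s, hs⟩ := hS
        have h1 := hC.cut (S := C ∩ G.ball S r) inter_subset_left
          ⟨s, mem_inter.2 ⟨h hs, subset_ball S r hs⟩⟩
          ⟨x, mem_sdiff.2 ⟨hx, fun h' => hx' (mem_inter.1 h').2⟩⟩
        obtain ⟨a, ha, c, hc, hw⟩ := G.e_pos.1 (show 0 < G.e (C ∩ G.ball S r) (C \ (C ∩ G.ball S r)) by omega)
        obtain ⟨hcC, hcn⟩ := mem_sdiff.1 hc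
        have h2 : (C ∩ G.ball S r).card < (C ∩ G.ball S (r + 1)).card := by
          apply card_lt_card
          refine ⟨inter_subset_inter (subset_refl _) (subset_nb _), ?_⟩
          intro h'
          apply hcn
          apply h'
          rw [mem_inter]
          refine ⟨hcC, ?_⟩
          show c ∈ G.nb (G.ball S r)
          simp only [nb, mem_filter, mem_univ, true_and]
          right
          exact G.e_pos.2 ⟨c, mem_singleton_self c, a, (mem_inter.1 ha).2, by rw [G.symm]; exact hw⟩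
        omega

lemma subset_ball_of_card {S C : Finset V} (hS : S.Nonempty) (hC : G.conn C) (h : S ⊆ C) {L : ℕ}
    (hL : C.card ≤ L) : C ⊆ G.ball S L := by
  rcases ball_conn hS hC h L with h1 | h1
  · exact h1
  · have := card_le_card (inter_subset_left : C ∩ G.ball S L ⊆ C)
    omega

lemma conn_univ [Nonempty V] (G : Cub V) : G.conn univ := by
  refine ⟨univ_nonempty, ?_⟩
  intro S T hST hU hS hT
  have h1 : Sᶜ = T := by
    ext x
    have : x ∈ S ∪ T := by rw [hU]; exact mem_univ x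
    have h2 := (Finset.disjoint_left.1 hST) (a := x)
    simp only [mem_union, mem_compl] at *
    tauto
  have h3 := G.three_le_d hS (by rw [h1]; exact hT)
  rw [d, h1] at h3
  omega

/-- constants -/
def cF (n : ℕ) : ℕ := fk n (6 * n + 7)
def cL (n : ℕ) : ℕ := cF n + (2 * n + 2)
def cM (n : ℕ) : ℕ := 4 ^ (cL n) * (n + 1) + 1
def cN (n : ℕ) : ℕ := cM n + 3 * cM n * cF n + 1

theorem main_cub {n : ℕ} (hn : 1 ≤ n) (G : Cub V) (hV : cN n ≤ Fintype.card V) :
    ∃ W, G.Fam W ∧ W.card = n := by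
  by_contra hno'
  have hno : ∀ W, G.Fam W → W.card ≠ n := fun W hW hc => hno' ⟨W, hW, hc⟩
  have hF2 : 2 ≤ cF n := two_le_fk _ _
  have hFL : cF n + (2 * n + 2) = cL n := rfl
  have hMdef : cM n = 4 ^ (cL n) * (n + 1) + 1 := rfl
  have hNdef : cN n = cM n + 3 * cM n * cF n + 1 := rfl
  have hMn : n + 1 ≤ cM n := by
    have : 1 ≤ 4 ^ (cL n) := Nat.one_le_pow _ _ (by norm_num)
    nlinarith
  have hVpos : 0 < Fintype.card V := by omega
  obtain ⟨v0⟩ : Nonempty V := Fintype.card_pos_iff.1 hVpos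
  have hVne : Nonempty V := ⟨v0⟩
  -- a big connected set
  obtain ⟨Y, -, -, hYc, hYM⟩ := exists_conn_card (kc_singleton 1 v0) (conn_univ G)
    (subset_univ {v0}) (cM n) (by simp; omega) (by rw [card_univ]; omega)
  have hYcard : Y.card + Yᶜ.card = Fintype.card V := card_add_card_compl Y
  have hYcne : Yᶜ.Nonempty := by rw [← card_pos]; omega
  obtain ⟨E0, hE0Y, hE0t, hE0c⟩ := exists_tec (G := G) hYcne (by rw [compl_compl]; exact hYc.1)
  have hdY : G.d Yᶜ ≤ 3 * cM n := by
    rw [d_compl, ← hYM]; exact G.e_le _ _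
  have hE0F : cF n ≤ E0.card := by
    by_contra hcon
    push Not at hcon
    have h1 : E0.card * (G.d Yᶜ - 2) ≤ cF n * (3 * cM n) := Nat.mul_le_mul hcon.le (by omega)
    have h2 : cF n * (3 * cM n) = 3 * cM n * cF n := by ring
    omega
  obtain ⟨B1, hEB, hYB, hB1t, hB1c, -⟩ := hull hYc hE0t (by
    rw [Finset.disjoint_left]; intro x hx hx'; exact (mem_compl.1 (hE0Y hx')) hx)
  obtain ⟨H0, hH0⟩ : ∃ H0, H0 = B1ᶜ := ⟨_, rfl⟩
  have hH0c : G.conn H0 := hH0 ▸ hB1c
  have hH0F : G.Fam H0 := ⟨hH0c, by rw [hH0, compl_compl]; exact hB1t⟩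
  have hYH0 : Y ⊆ H0 := by
    intro x hx; rw [hH0, mem_compl]; exact Finset.disjoint_left.1 hYB hx
  have hH0card : cM n ≤ H0.card := hYM ▸ card_le_card hYH0
  have hH0comp : cF n ≤ H0ᶜ.card := by
    rw [hH0, compl_compl]; exact hE0F.trans (card_le_card hEB)
  -- X0 and Y0
  obtain ⟨x0, hx0⟩ := hH0c.1
  obtain ⟨X0, -, hX0H, hX0c, hX0n⟩ := exists_conn_card (kc_singleton 1 x0) hH0c
    (by simpa using hx0) (n + 1) (by simp) (by omega)
  have hy : ∃ y ∈ H0, y ∉ G.ball X0 (cL n) := by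
    by_contra hcon
    push Not at hcon
    have h1 : H0.card ≤ (G.ball X0 (cL n)).card := card_le_card hcon
    have h2 := card_ball_le (G := G) X0 (cL n)
    rw [hX0n] at h2
    omega
  obtain ⟨y, hyH, hyb⟩ := hy
  obtain ⟨Y0, hyY0, hY0H, hY0c, hY0n⟩ := exists_conn_card (kc_singleton 1 y) hH0c
    (by simpa using hyH) (n + 1) (by simp) (by omega)
  have hyY0' : y ∈ Y0 := hyY0 (mem_singleton_self y)
  have hfar : ∀ C, G.conn C → X0 ⊆ C → Y0 ⊆ C → cL n < C.card := by
    intro C hC hXC hYC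
    by_contra hcon
    push Not at hcon
    exact hyb (subset_ball_of_card hX0c.1 hC hXC hcon (hYC hyY0'))
  have hXYcard : (X0 ∪ Y0).card ≤ 2 * n + 2 := by
    have := card_union_le X0 Y0; omega
  have hXYd : Disjoint X0 Y0 := by
    by_contra hcon
    have h1 := hfar (X0 ∪ Y0) (kc_union hX0c hY0c (by
      rw [← not_disjoint_iff_nonempty_inter]; exact hcon)) subset_union_left subset_union_right
    omega
  have hXYe : G.e X0 Y0 = 0 := by
    by_contra hcon
    have h1 := hfar (X0 ∪ Y0) (conn_union hX0c hY0c (Nat.pos_of_ne_zero hcon)) subset_union_left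
      subset_union_right
    omega
  -- minimal H
  obtain ⟨H, hHH0, ⟨hHF, hXYH⟩, hHmin⟩ :=
    exists_min_set (fun H => G.Fam H ∧ X0 ∪ Y0 ⊆ H) (A := H0) ⟨hH0F, union_subset hX0H hY0H⟩
  have hXH : X0 ⊆ H := subset_union_left.trans hXYH
  have hYH : Y0 ⊆ H := subset_union_right.trans hXYH
  have hHbig : cF n ≤ H.card := by
    have := hfar H hHF.1 hXH hYH
    omega
  have hHcbig : cF n ≤ Hᶜ.card := hH0comp.trans (card_le_card (compl_subset_compl.2 hHH0))
  have hM : ∀ Y M, G.conn Y → X0 ∪ Y0 ⊆ Y → Y ⊆ H → G.conn M → M ⊆ H → Disjoint M Y →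
      G.e M Hᶜ ≤ 1 := by
    intro Y M hYc hXYY hYH' hMc hMH hMY
    by_contra hcon
    obtain ⟨M', hM'M, hM'n, hM't⟩ := ear hHF.2 hMc (by
      rw [Finset.disjoint_left]; intro x hx hx'; exact (mem_compl.1 hx') (hMH hx))
      (by omega : 2 ≤ G.e M Hᶜ)
    obtain ⟨B2, hHB, hYB2, hB2t, hB2c, -⟩ := hull hYc hM't (by
      rw [disjoint_union_right]
      refine ⟨?_, (hMY.mono_left hM'M).symm⟩
      rw [Finset.disjoint_left]; intro x hx hx'; exact (mem_compl.1 hx') (hYH' hx))
    have hKH : B2ᶜ ⊆ H := by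
      intro x hx
      by_contra hxH
      exact (mem_compl.1 hx) (hHB (mem_union_left _ (mem_compl.2 hxH)))
    have h1 := hHmin B2ᶜ hKH ⟨⟨hB2c, by rw [compl_compl]; exact hB2t⟩, by
      intro x hx; rw [mem_compl]; exact Finset.disjoint_left.1 hYB2 (hXYY hx)⟩
    obtain ⟨m, hm⟩ := hM'n
    have h2 : m ∈ B2ᶜ := by rw [h1]; exact hMH (hM'M hm)
    exact (mem_compl.1 h2) (hHB (mem_union_right _ hm))
  -- bridge case
  have hcut : ∀ A, X0 ⊆ A → A ⊆ H → Disjoint A Y0 → 2 ≤ G.e A (H \ A) := by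
    intro A hXA hAH hAY
    by_contra hcon
    have h1 : X0.card ≤ A.card := card_le_card hXA
    have h2 : Y0.card ≤ (H \ A).card := card_le_card (by
      intro x hx
      rw [mem_sdiff]
      exact ⟨hYH hx, fun h' => Finset.disjoint_left.1 hAY h' hx⟩)
    obtain ⟨W, hW, hWn⟩ := bridge_lemma hHF disjoint_sdiff (union_sdiff_of_subset hAH)
      (by omega) n hn (by omega) (by omega)
    exact hno W hW hWn
  obtain ⟨M, hMH, hMc, hHMc, hMXY, hMX, hMY⟩ := two_path' hHF.1 hXH hX0c hYH hY0c hXYd hXYe hcut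
  have hXYHM : X0 ∪ Y0 ⊆ H \ M := by
    intro x hx
    rw [mem_sdiff]
    exact ⟨hXYH hx, fun h' => Finset.disjoint_left.1 hMXY h' hx⟩
  have hM1 : G.e M Hᶜ ≤ 1 := hM (H \ M) M hHMc hXYHM sdiff_subset hMc hMH disjoint_sdiff
  have hY' : G.conn (X0 ∪ M ∪ Y0) := by
    refine conn_union (conn_union hX0c hMc (by rw [e_comm]; exact hMX)) hY0c ?_
    exact hMY.trans_le (G.e_mono subset_union_right (subset_refl _))
  obtain ⟨R, hR⟩ : ∃ R, R = (H \ M) \ (X0 ∪ Y0) := ⟨_, rfl⟩
  have hRe : G.e R Hᶜ ≤ G.e R (X0 ∪ Y0) := by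
    refine ci ?_
    intro U hU hUc hU0
    have hUH : U ⊆ H := by
      intro x hx
      have := hU hx
      rw [hR] at this
      exact (mem_sdiff.1 (mem_sdiff.1 this).1).1
    have h1 : G.e U Hᶜ ≤ 1 := by
      refine hM (X0 ∪ M ∪ Y0) U hY' ?_ ?_ hUc hUH ?_
      · exact union_subset (subset_union_left.trans subset_union_left) subset_union_right
      · exact union_subset (union_subset hXH hMH) hYH
      · rw [Finset.disjoint_left]
        intro x hx hx'
        have h2 := hU hx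
        rw [hR, mem_sdiff, mem_sdiff, mem_union] at h2
        rw [mem_union, mem_union] at hx'
        tauto
    have h2 : 1 ≤ G.e U ((H \ M) \ U) := hHMc.cut (hU.trans (by rw [hR]; exact sdiff_subset)) hUc.1
      (by
        obtain ⟨x, hx⟩ := hX0c.1
        refine ⟨x, mem_sdiff.2 ⟨hXYHM (mem_union_left _ hx), ?_⟩⟩
        intro h'
        have := hU h'
        rw [hR] at this
        exact (mem_sdiff.1 this).2 (mem_union_left _ hx))
    have h3 := e_le2 (G := G) (U := U) (show (H \ M) \ U ⊆ (R \ U) ∪ (X0 ∪ Y0) by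
      intro x hx
      obtain ⟨hx1, hx2⟩ := mem_sdiff.1 hx
      by_cases hxX : x ∈ X0 ∪ Y0
      · exact mem_union_right _ hxX
      · apply mem_union_left
        rw [mem_sdiff, hR, mem_sdiff]
        exact ⟨⟨hx1, hxX⟩, hx2⟩)
    omega
  have hdH : G.d H ≤ 6 * n + 7 := by
    have h1 : G.d H = G.e Hᶜ M + G.e Hᶜ (X0 ∪ Y0) + G.e Hᶜ R := by
      rw [d, e_comm]
      refine e_eq3 ?_ hMXY ?_
      · rw [hR]
        ext x
        have h2 : x ∈ X0 ∪ Y0 → x ∈ H := fun h => hXYH h
        have h3 : x ∈ M → x ∈ H := fun h => hMH h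
        simp only [mem_union, mem_sdiff] at *
        tauto
      · rw [hR, Finset.disjoint_left]
        intro x
        simp only [mem_union, mem_sdiff]
        tauto
    rw [e_comm G Hᶜ M, e_comm G Hᶜ (X0 ∪ Y0), e_comm G Hᶜ R] at h1
    have h4 : G.e (X0 ∪ Y0) Hᶜ + G.e (X0 ∪ Y0) R ≤ G.e (X0 ∪ Y0) univ :=
      e_ge2 (subset_univ _) (subset_univ _) (by
        rw [Finset.disjoint_left]
        intro x hx hx'
        rw [hR] at hx'
        exact (mem_compl.1 hx) (mem_sdiff.1 (mem_sdiff.1 hx').1).1)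
    rw [e_univ, e_comm G (X0 ∪ Y0) R] at h4
    omega
  have hfin := kcut hn hno (6 * n + 7) H hdH
  have hFdef : cF n = fk n (6 * n + 7) := rfl
  omega

end Cub

end Run7.h672
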