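import Pool.Agent.Run7.h672.Hull

open Finset

namespace Run7.h672

variable {V : Type*} [Fintype V] [DecidableEq V]

attribute [local grind =] Finset.mem_compl Finset.disjoint_left

namespace Cub

variable {G : Cub V}

lemma e_le2 {U D C1 C2 : Finset V} (h : D ⊆ C1 ∪ C2) : G.e U D ≤ G.e U C1 + G.e U C2 := by
  have h1 := G.e_mono (subset_refl U) h
  have h2 : C1 ∪ C2 = C1 ∪ (C2 \ C1) := by grind
  have h3 : Disjoint C1 (C2 \ C1) := disjoint_sdiff
  rw [h2, e_union_right G h3] at h1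
  have h4 := G.e_mono (subset_refl U) (sdiff_subset : C2 \ C1 ⊆ C2)
  omega

lemma e_le3 {U D C1 C2 C3 : Finset V} (h : D ⊆ C1 ∪ C2 ∪ C3) :
    G.e U D ≤ G.e U C1 + G.e U C2 + G.e U C3 := by
  have h1 := e_le2 (G := G) (U := U) h
  have h2 := e_le2 (G := G) (U := U) (subset_refl (C1 ∪ C2))
  omega

lemma e_le4 {U D C1 C2 C3 C4 : Finset V} (h : D ⊆ C1 ∪ C2 ∪ C3 ∪ C4) :
    G.e U D ≤ G.e U C1 + G.e U C2 + G.e U C3 + G.e U C4 := by
  have h1 := e_le2 (G := G) (U := U) h
  have h2 := e_le3 (G := G) (U := U) (subset_refl (C1 ∪ C2 ∪ C3))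
  omega

lemma e_eq2 {U D C1 C2 : Finset V} (h : D = C1 ∪ C2) (h12 : Disjoint C1 C2) :
    G.e U D = G.e U C1 + G.e U C2 := by
  rw [h, e_union_right G h12]

lemma e_eq3 {U D C1 C2 C3 : Finset V} (h : D = C1 ∪ C2 ∪ C3) (h12 : Disjoint C1 C2)
    (h3 : Disjoint (C1 ∪ C2) C3) :
    G.e U D = G.e U C1 + G.e U C2 + G.e U C3 := by
  rw [h, e_union_right G h3, e_union_right G h12]

lemma e_eq4 {U D C1 C2 C3 C4 : Finset V} (h : D = C1 ∪ C2 ∪ C3 ∪ C4) (h12 : Disjoint C1 C2)
    (h3 : Disjoint (C1 ∪ C2) C3) (h4 : Disjoint (C1 ∪ C2 ∪ C3) C4) :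
    G.e U D = G.e U C1 + G.e U C2 + G.e U C3 + G.e U C4 := by
  rw [h, e_union_right G h4, e_union_right G h3, e_union_right G h12]

lemma e_ge2 {U D C1 C2 : Finset V} (h1 : C1 ⊆ D) (h2 : C2 ⊆ D) (h12 : Disjoint C1 C2) :
    G.e U C1 + G.e U C2 ≤ G.e U D := by
  rw [← e_union_right G h12]
  exact G.e_mono (subset_refl _) (union_subset h1 h2)

lemma exists_comp {R : Finset V} (hR : R.Nonempty) :
    ∃ U, U ⊆ R ∧ G.conn U ∧ G.e U (R \ U) = 0 := by
  by_contra hcon
  push Not at hcon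
  have h := ci (G := G) (R := R) (E := univ) (Z := ∅)
    (fun U hU hc h0 => (hcon U hU hc h0).elim)
  rw [e_univ, e_empty_right] at h
  have := hR.card_pos
  omega

/-- the family of sets to be contracted -/
def Fam (G : Cub V) (W : Finset V) : Prop := G.conn W ∧ G.tec Wᶜ

lemma growth {W X : Finset V} (hW : G.Fam W) (hX : G.Fam X) (hsub : W ⊆ X) (hne : W ≠ X)
    (hnone : ∀ K, G.Fam K → W ⊆ K → K ⊆ X → K = W ∨ K = X) :
    G.d X + (X \ W).card ≤ G.d W + 2 := by
  obtain ⟨P, hP⟩ : ∃ P, P = X \ W := ⟨_, rfl⟩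
  obtain ⟨B', hB'⟩ : ∃ B', B' = Xᶜ := ⟨_, rfl⟩
  have hWP : Wᶜ \ P = B' := by
    rw [hP, hB']; ext x; simp only [mem_sdiff, mem_compl]; have := @hsub x; tauto
  have hBt : G.tec Wᶜ := hW.2
  have hB't : G.tec B' := hB' ▸ hX.2
  have hB'n : B'.Nonempty := hB't.1
  have hPn : P.Nonempty := by
    by_contra hcon
    rw [not_nonempty_iff_eq_empty] at hcon
    apply hne
    apply subset_antisymm hsub
    rw [← sdiff_eq_empty_iff_subset, ← hP, hcon]
  -- (0)
  have hi : ∀ q ∈ P, 0 < G.e {q} W → ∀ M, M ⊆ P \ {q} → G.conn M → G.e M B' ≤ 1 := by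
    intro q hq hqW M hM hMc
    by_contra hcon
    obtain ⟨M', hM'M, hM'n, hM't⟩ := ear hB't hMc (by grind) (by omega : 2 ≤ G.e M B')
    have hYc : G.conn (W ∪ {q}) := conn_union hW.1 (kc_singleton 1 q) (by rw [e_comm]; exact hqW)
    obtain ⟨B1, h01, hd1, hB1, hK, -⟩ := hull hYc hM't (by grind)
    have hF : G.Fam B1ᶜ := ⟨hK, by rw [compl_compl]; exact hB1⟩
    rcases hnone B1ᶜ hF (by grind) (by grind) with h | h
    · have : q ∈ B1ᶜ := by grind
      rw [h] at this
      grind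
    · obtain ⟨m, hm⟩ := hM'n
      have : m ∈ X := by grind
      rw [← h] at this
      grind
  have hcut : ∀ U, U ⊆ P → U.Nonempty → 2 ≤ G.e U (Wᶜ \ U) := by
    intro U hU hUn
    obtain ⟨b, hb⟩ := hB'n
    exact hBt.cut (by grind) hUn ⟨b, by grind⟩
  have hQ : ∃ q ∈ P, 0 < G.e {q} W := by
    have h1 : 1 ≤ G.e W (X \ W) := hX.1.cut hsub hW.1.1 (hP ▸ hPn)
    obtain ⟨a, ha, c, hc, hw⟩ := G.e_pos.1 (show 0 < G.e W (X \ W) by omega)
    refine ⟨c, by grind, G.e_pos.2 ⟨c, by simp, a, ha, by rw [G.symm]; exact hw⟩⟩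
  have h2 : G.e P B' ≤ 2 := by
    obtain ⟨q, hq, hqW⟩ := hQ
    have h1 : G.e (P \ {q}) B' ≤ G.e (P \ {q}) {q} := by
      refine ci ?_
      intro U hU hUc hU0
      have h1 := hi q hq hqW U hU hUc
      have h2 := hcut U (by grind) hUc.1
      have h3 := e_le3 (G := G) (U := U) (show Wᶜ \ U ⊆ ((P \ {q}) \ U) ∪ {q} ∪ B' by grind)
      omega
    have h2 : G.e P B' = G.e {q} B' + G.e (P \ {q}) B' := G.e_split_left (by grind) _
    have h3 := G.e_single_univ q
    have h4 := e_eq3 (G := G) (U := {q}) (D := univ \ {q}) (C1 := W) (C2 := P \ {q}) (C3 := B')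
      (by ext x; grind) (by grind) (by grind)
    have h5 : G.e {q} univ = G.e {q} {q} + G.e {q} (univ \ {q}) := G.e_split_right (by grind) _
    rw [e_comm G (P \ {q}) {q}] at h1
    omega
  have hdX : G.d X = G.e W B' + G.e P B' := by
    rw [d, ← hB', G.e_split_left hsub, hP]
  have hdW : G.d W = G.e W P + G.e W B' := e_eq2 (by grind) (by grind)
  have hPuniv : 3 * P.card = G.e P W + G.e P P + G.e P B' := by
    rw [← G.e_univ]
    exact e_eq3 (by ext x; grind) (by grind) (by grind)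
  rw [← hP, hdX, hdW]
  rw [e_comm G P W] at hPuniv
  obtain ⟨t, ht⟩ := G.even_e_self P
  by_cases hlt : G.e P P < 2 * P.card
  · omega
  exfalso
  obtain ⟨S, hSP, ⟨hSn, hS2⟩, hSmin⟩ :=
    exists_min_set (fun S => S.Nonempty ∧ 2 * S.card ≤ G.e S S) (A := P) ⟨hPn, by omega⟩
  have hSt : G.tec S := by
    refine ⟨hSn, ?_⟩
    intro A B hAB hU hA hB
    have hA' : G.e A A < 2 * A.card := by
      by_contra hcon
      have := hSmin A (by grind) ⟨hA, by omega⟩
      obtain ⟨b, hb⟩ := hB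
      grind
    have hB' : G.e B B < 2 * B.card := by
      by_contra hcon
      have := hSmin B (by grind) ⟨hB, by omega⟩
      obtain ⟨b, hb⟩ := hA
      grind
    obtain ⟨s, hs⟩ := G.even_e_self A
    obtain ⟨t, ht⟩ := G.even_e_self B
    have h1 : S.card = A.card + B.card := by rw [← hU, card_union_of_disjoint hAB]
    have h2 : G.e S S = G.e A A + G.e A B + (G.e B A + G.e B B) := by
      rw [← hU, G.e_union_left hAB, G.e_union_right hAB, G.e_union_right hAB]
    rw [e_comm G B A] at h2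
    omega
  obtain ⟨M, hSM, ⟨hMP, hMt⟩, hMmax⟩ :=
    exists_max_set (fun M => M ⊆ P ∧ G.tec M) (A := S) ⟨hSP, hSt⟩
  have hM2 : ∀ q ∈ M, (M \ {q}).Nonempty := by
    intro q hq
    by_contra hcon
    rw [not_nonempty_iff_eq_empty] at hcon
    have hM1 : M = {q} := by
      apply subset_antisymm
      · rwa [← sdiff_eq_empty_iff_subset]
      · simpa using hq
    have hS1 : S = {q} := by
      rcases Finset.subset_singleton_iff.1 (hM1 ▸ hSM) with h | h
      · exact (hSn.ne_empty h).elim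
      · exact h
    rw [hS1, e_single_self] at hS2
    simp at hS2
  have hMW : G.e M W = 0 := by
    by_contra hcon
    obtain ⟨q, hqM, c, hc, hw⟩ := G.e_pos.1 (show 0 < G.e M W by omega)
    have hqW : 0 < G.e {q} W := G.e_pos.2 ⟨q, by simp, c, hc, hw⟩
    have hqP : q ∈ P := hMP hqM
    have h1 : 2 ≤ G.e {q} (M \ {q}) := hMt.cut (by grind) (by simp) (hM2 q hqM)
    have h3 := G.e_single_univ q
    have h4 := e_eq4 (G := G) (U := {q}) (D := univ \ {q}) (C1 := W) (C2 := M \ {q}) (C3 := P \ M)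
      (C4 := B') (by ext x; grind) (by grind) (by grind) (by grind)
    have h5 : G.e {q} univ = G.e {q} {q} + G.e {q} (univ \ {q}) := G.e_split_right (by grind) _
    have hMq : G.conn (M \ {q}) := conn_erase hMt hqM (hM2 q hqM)
    have key : ∀ S' T' : Finset V, Disjoint S' T' → S' ∪ T' = P \ {q} → S'.Nonempty →
        G.e S' T' = 0 → M \ {q} ⊆ T' → False := by
      intro S' T' hd hU hS' h0 hMT
      obtain ⟨U, hUS, hUc, hU0⟩ := exists_comp (G := G) hS'
      have hS'P : S' ⊆ P \ {q} := hU ▸ subset_union_left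
      have h6 := hi q hqP hqW U (hUS.trans hS'P) hUc
      have h7 := hcut U ((hUS.trans hS'P).trans sdiff_subset) hUc.1
      have h8 := e_le4 (G := G) (U := U) (show Wᶜ \ U ⊆ (S' \ U) ∪ T' ∪ {q} ∪ B' by
        intro x hx
        have : x ∈ P \ {q} → x ∈ S' ∪ T' := fun h => hU ▸ h
        grind)
      have h9 : G.e U T' ≤ G.e S' T' := G.e_mono hUS (subset_refl _)
      have h10 : G.e U {q} ≤ G.e (P \ M) {q} := G.e_mono (by
        intro x hx
        have hx' : x ∈ S' ∪ T' := mem_union_left _ (hUS hx)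
        have hx'' : x ∉ T' := by grind
        rw [hU] at hx'
        grind) (subset_refl _)
      rw [e_comm G (P \ M) {q}] at h10
      omega
    have hR : G.conn (P \ {q}) := by
      refine ⟨?_, ?_⟩
      · obtain ⟨b, hb⟩ := hM2 q hqM
        exact ⟨b, by grind⟩
      · intro S' T' hd hU hS' hT'
        by_contra hcon
        have h0 : G.e S' T' = 0 := by omega
        rcases conn_side hMq (by rw [hU]; grind) hd h0 with h | h
        · exact key T' S' hd.symm (by rw [union_comm]; exact hU) hT' (by rw [e_comm]; exact h0) h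
        · exact key S' T' hd hU hS' h0 h
    have h6 := hi q hqP hqW _ (subset_refl _) hR
    have h7 := hcut P (subset_refl _) hPn
    rw [hWP, G.e_split_left (show {q} ⊆ P by grind)] at h7
    omega
  have hci : G.e (P \ M) M ≤ G.e (P \ M) B' := by
    refine ci ?_
    intro U hU hUc hU0
    have h1 : G.e U M ≤ 1 := by
      by_contra hcon
      obtain ⟨M', hM'U, hM'n, hM't⟩ := ear hMt hUc (by grind) (by omega : 2 ≤ G.e U M)
      have := hMmax (M ∪ M') subset_union_left ⟨by grind, hM't⟩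
      obtain ⟨m, hm⟩ := hM'n
      have h3 : m ∈ M ∪ M' := mem_union_right _ hm
      rw [this] at h3
      grind
    have h2 := hcut U (by grind) hUc.1
    have h3 := e_le3 (G := G) (U := U) (show Wᶜ \ U ⊆ ((P \ M) \ U) ∪ M ∪ B' by grind)
    omega
  have hdM : G.d M = G.e M W + G.e M (P \ M) + G.e M B' :=
    e_eq3 (by ext x; grind) (by grind) (by grind)
  have h3 : 3 ≤ G.d M := by
    refine G.three_le_d hMt.1 ?_
    obtain ⟨w, hw⟩ := hW.1.1
    exact ⟨w, by grind⟩
  have h4 : G.e P B' = G.e M B' + G.e (P \ M) B' := G.e_split_left hMP _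
  rw [e_comm G M (P \ M)] at hdM
  omega

end Cub

end Run7.h672
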