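import Pool.Agent.Run7.h672.Cut

open Finset

namespace Run7.h672

variable {V : Type*} [Fintype V] [DecidableEq V]

omit [DecidableEq V] in
lemma exists_max_set (P : Finset V → Prop) {A : Finset V} (hA : P A) :
    ∃ B, A ⊆ B ∧ P B ∧ ∀ C, B ⊆ C → P C → C = B := by
  obtain ⟨B, hAB, hB⟩ := (Set.toFinite {B : Finset V | P B}).exists_le_maximal hA
  exact ⟨B, hAB, hB.1, fun C h hC => subset_antisymm (hB.2 hC h) h⟩

omit [DecidableEq V] in
lemma exists_min_set (P : Finset V → Prop) {A : Finset V} (hA : P A) :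
    ∃ B, B ⊆ A ∧ P B ∧ ∀ C, C ⊆ B → P C → C = B := by
  obtain ⟨B, hAB, hB⟩ := (Set.toFinite {B : Finset V | P B}).exists_le_minimal hA
  exact ⟨B, hAB, hB.1, fun C h hC => subset_antisymm h (hB.2 hC h)⟩

namespace Cub

variable {G : Cub V}

lemma conn_side {Y S T : Finset V} (hY : G.conn Y) (h : Y ⊆ S ∪ T) (hd : Disjoint S T)
    (he : G.e S T = 0) : Y ⊆ S ∨ Y ⊆ T := by
  by_contra hcon
  push Not at hcon
  obtain ⟨h1, h2⟩ := hcon
  obtain ⟨x, hx, hx'⟩ := Finset.not_subset.1 h1
  obtain ⟨y, hy, hy'⟩ := Finset.not_subset.1 h2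
  have hxT : x ∈ T := by
    rcases mem_union.1 (h hx) with h | h
    · exact (hx' h).elim
    · exact h
  have hyS : y ∈ S := by
    rcases mem_union.1 (h hy) with h | h
    · exact h
    · exact (hy' h).elim
  have := hY.2 (S ∩ Y) (T ∩ Y) (hd.mono inter_subset_left inter_subset_left)
    (by rw [← union_inter_distrib_right]; exact inter_eq_right.2 h)
    ⟨y, mem_inter.2 ⟨hyS, hy⟩⟩ ⟨x, mem_inter.2 ⟨hxT, hx⟩⟩
  have h3 := G.e_mono (inter_subset_left : S ∩ Y ⊆ S) (inter_subset_left : T ∩ Y ⊆ T)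
  omega

/-- if all neighbours of a side of a complement lie in the 2-edge-connected set, absorb it -/
lemma tec_absorb {B S T : Finset V} (hB : G.tec B) (h1 : Disjoint S T) (h2 : S ∪ T = Bᶜ)
    (h0 : G.e S T = 0) (hT : T.Nonempty) : G.tec (B ∪ S) := by
  refine kc_add hB ?_
  intro U hU hUn
  have hUT : Disjoint U T := h1.mono_left hU
  have hUB : Disjoint U B := by
    rw [Finset.disjoint_left]; intro x hx hxB
    have : x ∈ Bᶜ := h2 ▸ mem_union_left _ (hU hx)
    exact (mem_compl.1 this) hxB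
  have hc : Uᶜ = ((B ∪ S) \ U) ∪ T := by
    ext x
    have e1 : x ∈ S ∪ T ↔ x ∈ Bᶜ := by rw [h2]
    have e2 := (Finset.disjoint_left.1 h1) (a := x)
    have e3 : x ∈ U → x ∈ S := fun h => hU h
    simp only [mem_union, mem_sdiff, mem_compl] at *
    tauto
  have h3 : 3 ≤ G.e U Uᶜ := G.three_le_d hUn (hT.mono (by rw [hc]; exact subset_union_right))
  have h4 : Disjoint ((B ∪ S) \ U) T := by
    rw [Finset.disjoint_left]; intro x hx hxT
    have e1 : x ∈ S ∪ T ↔ x ∈ Bᶜ := by rw [h2]
    have e2 := (Finset.disjoint_left.1 h1) (a := x)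
    simp only [mem_union, mem_sdiff, mem_compl] at *
    tauto
  rw [hc, e_union_right G h4] at h3
  have h5 : G.e U T ≤ G.e S T := G.e_mono hU (subset_refl _)
  omega

/-- hull lemma -/
lemma hull {Y B0 : Finset V} (hY : G.conn Y) (hB : G.tec B0) (hd : Disjoint Y B0) :
    ∃ B1, B0 ⊆ B1 ∧ Disjoint Y B1 ∧ G.tec B1 ∧ G.conn B1ᶜ ∧
      (∀ C, B1 ⊆ C → Disjoint Y C → G.tec C → C = B1) := by
  obtain ⟨B1, h01, ⟨hd1, hB1⟩, hmax⟩ :=
    exists_max_set (fun B => Disjoint Y B ∧ G.tec B) (A := B0) ⟨hd, hB⟩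
  refine ⟨B1, h01, hd1, hB1, ?_, fun C h h' h'' => hmax C h ⟨h', h''⟩⟩
  have hYc : Y ⊆ B1ᶜ := by
    intro x hx; rw [mem_compl]; exact Finset.disjoint_left.1 hd1 hx
  refine ⟨hY.1.mono hYc, ?_⟩
  have key : ∀ S T : Finset V, Disjoint S T → S ∪ T = B1ᶜ → S.Nonempty → T.Nonempty →
      G.e S T = 0 → Y ⊆ T → False := by
    intro S T h1 h2 hS hT h0 hYT
    have h3 := tec_absorb hB1 h1 h2 h0 hT
    have h4 : B1 ∪ S = B1 := by
      refine hmax _ subset_union_left ⟨?_, h3⟩
      rw [disjoint_union_right]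
      exact ⟨hd1, (h1.mono_right hYT).symm⟩
    obtain ⟨s, hs⟩ := hS
    have h5 : s ∈ B1 := h4 ▸ mem_union_right _ hs
    have h6 : s ∈ B1ᶜ := h2 ▸ mem_union_left _ hs
    exact (mem_compl.1 h6) h5
  intro S T h1 h2 hS hT
  by_contra hcon
  have h0 : G.e S T = 0 := by omega
  rcases conn_side hY (by rw [h2]; exact hYc) h1 h0 with h | h
  · exact key T S h1.symm (by rw [union_comm]; exact h2) hT hS (by rw [e_comm]; exact h0) h
  · exact key S T h1 h2 hS hT h0 h

/-- ear lemma -/
lemma ear {B M : Finset V} (hB : G.tec B) (hM : G.conn M) (hd : Disjoint M B)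
    (he : 2 ≤ G.e M B) : ∃ M', M' ⊆ M ∧ M'.Nonempty ∧ G.tec (B ∪ M') := by
  obtain ⟨M', hM'M, ⟨hc, h2⟩, hmin⟩ :=
    exists_min_set (fun M => G.conn M ∧ 2 ≤ G.e M B) (A := M) ⟨hM, he⟩
  refine ⟨M', hM'M, hc.1, kc_add hB ?_⟩
  have hd' : Disjoint M' B := hd.mono_left hM'M
  intro T hT hTn
  have h3 : (B ∪ M') \ T = B ∪ (M' \ T) := by
    ext x
    have e2 := (Finset.disjoint_left.1 hd') (a := x)
    have e3 : x ∈ T → x ∈ M' := fun h => hT h
    simp only [mem_union, mem_sdiff] at *
    tauto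
  have h4 : Disjoint B (M' \ T) := hd'.symm.mono_right sdiff_subset
  rw [h3, e_union_right G h4]
  by_cases hne : (M' \ T).Nonempty
  · by_contra hcon
    have h5 := hc.cut hT hTn hne
    have h6 : G.e M' B = G.e T B + G.e (M' \ T) B := G.e_split_left hT B
    have h7 : G.conn (M' \ T) := by
      refine conn_of_bridge (Z := T) sdiff_disjoint ?_ hne ?_
      · rw [sdiff_union_of_subset hT]; exact hc
      · rw [e_comm]; omega
    have h8 := hmin (M' \ T) sdiff_subset ⟨h7, by omega⟩
    obtain ⟨t, ht⟩ := hTn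
    have : t ∈ M' \ T := by rw [h8]; exact hT ht
    exact (mem_sdiff.1 this).2 ht
  · rw [not_nonempty_iff_eq_empty] at hne
    have : T = M' := subset_antisymm hT (sdiff_eq_empty_iff_subset.1 hne)
    subst this
    omega

/-- component induction, closed subset version -/
lemma ci_closed {R E Z : Finset V}
    (h : ∀ U, U ⊆ R → G.conn U → G.e U (R \ U) = 0 → G.e U E ≤ G.e U Z) :
    ∀ (n : ℕ) (C : Finset V), C.card ≤ n → C ⊆ R → G.e C (R \ C) = 0 → G.e C E ≤ G.e C Z := by
  intro n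
  induction n with
  | zero =>
    intro C hC _ _
    have : C = ∅ := by simpa using hC
    subst this; simp
  | succ n ih =>
    intro C hC hCR hcl
    by_cases hne : C.Nonempty
    swap
    · rw [not_nonempty_iff_eq_empty] at hne
      subst hne; simp
    obtain ⟨U, hUC, ⟨hUn, hU0⟩, hmin⟩ :=
      exists_min_set (fun U => U.Nonempty ∧ G.e U (R \ U) = 0) (A := C) ⟨hne, hcl⟩
    have hUR : U ⊆ R := hUC.trans hCR
    have hUconn : G.conn U := by
      refine ⟨hUn, ?_⟩
      intro S T h1 h2 hS hT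
      by_contra hcon
      have h0 : G.e S T = 0 := by omega
      have hSU : S ⊆ U := h2 ▸ subset_union_left
      have h3 : R \ S = T ∪ (R \ U) := by
        ext x
        have e1 : x ∈ S ∪ T ↔ x ∈ U := by rw [h2]
        have e2 := (Finset.disjoint_left.1 h1) (a := x)
        have e3 : x ∈ U → x ∈ R := fun h => hUR h
        simp only [mem_union, mem_sdiff] at *
        tauto
      have h4 : Disjoint T (R \ U) := by
        rw [Finset.disjoint_left]; intro x hx hx'
        exact (mem_sdiff.1 hx').2 (h2 ▸ mem_union_right _ hx)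
      have h5 : G.e S (R \ S) = 0 := by
        rw [h3, e_union_right G h4]
        have := G.e_mono hSU (subset_refl (R \ U))
        omega
      have h6 := hmin S hSU ⟨hS, h5⟩
      obtain ⟨t, ht⟩ := hT
      have : t ∈ S := by rw [h6, ← h2]; exact mem_union_right _ ht
      exact (Finset.disjoint_left.1 h1 this) ht
    have h1 := h U hUR hUconn hU0
    have h2 : G.e (C \ U) (R \ (C \ U)) = 0 := by
      have h3 : R \ (C \ U) = U ∪ (R \ C) := by
        ext x
        have e1 : x ∈ U → x ∈ C := fun h => hUC h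
        have e3 : x ∈ C → x ∈ R := fun h => hCR h
        simp only [mem_union, mem_sdiff] at *
        tauto
      have h4 : Disjoint U (R \ C) := by
        rw [Finset.disjoint_left]; intro x hx hx'
        exact (mem_sdiff.1 hx').2 (hUC hx)
      rw [h3, e_union_right G h4]
      have h5 := G.e_mono (sdiff_subset : C \ U ⊆ C) (subset_refl (R \ C))
      have h6 := G.e_mono (sdiff_subset_sdiff hCR (subset_refl U) : C \ U ⊆ R \ U) (subset_refl U)
      rw [e_comm G (R \ U) U] at h6
      omega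
    have h3 : (C \ U).card ≤ n := by
      have h4 := card_sdiff_add_card_eq_card hUC
      have h5 : 0 < U.card := hUn.card_pos
      omega
    have h4 := ih (C \ U) h3 (sdiff_subset.trans hCR) h2
    rw [G.e_split_left hUC E, G.e_split_left hUC Z]
    omega

/-- component induction -/
lemma ci {R E Z : Finset V}
    (h : ∀ U, U ⊆ R → G.conn U → G.e U (R \ U) = 0 → G.e U E ≤ G.e U Z) :
    G.e R E ≤ G.e R Z :=
  ci_closed h R.card R le_rfl (subset_refl _) (by simp)

end Cub

end Run7.h672
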