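import Pool.Agent.Run7.h672.Bridge

open Finset

namespace Run7.h672

variable {V : Type*} [Fintype V] [DecidableEq V]

attribute [local grind =] Finset.mem_compl Finset.disjoint_left

namespace Cub

variable {G : Cub V}

/-- component induction principle -/
lemma comp_induction {R : Finset V} (P : Finset V → Prop) (h0 : P ∅)
    (hstep : ∀ C U, C ⊆ R → U ⊆ R → Disjoint C U → G.e U C = 0 → G.conn U →
      G.e U (R \ U) = 0 → P C → P (C ∪ U)) : P R := by
  have key : ∀ (n : ℕ) (C : Finset V), (R \ C).card ≤ n → C ⊆ R → G.e C (R \ C) = 0 → P C → P R := by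
    intro n
    induction n with
    | zero =>
      intro C hC hCR _ hP
      have h1 : R \ C = ∅ := by simpa using hC
      have h2 : C = R := subset_antisymm hCR (sdiff_eq_empty_iff_subset.1 h1)
      exact h2 ▸ hP
    | succ n ih =>
      intro C hC hCR hcl hP
      by_cases hne : (R \ C).Nonempty
      swap
      · rw [not_nonempty_iff_eq_empty] at hne
        have h2 : C = R := subset_antisymm hCR (sdiff_eq_empty_iff_subset.1 hne)
        exact h2 ▸ hP
      obtain ⟨U, hU, hUc, hU0⟩ := exists_comp (G := G) hne
      have hUR : U ⊆ R := hU.trans sdiff_subset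
      have hdis : Disjoint C U := by grind
      have h1 : G.e U C = 0 := by
        have := G.e_mono (subset_refl C) hU
        rw [e_comm G U C]; omega
      have h2 : G.e U (R \ U) = 0 := by
        have := e_le2 (G := G) (U := U) (show R \ U ⊆ ((R \ C) \ U) ∪ C by
          intro x hx
          rw [mem_sdiff] at hx
          by_cases hxC : x ∈ C
          · exact mem_union_right _ hxC
          · exact mem_union_left _ (mem_sdiff.2 ⟨mem_sdiff.2 ⟨hx.1, hxC⟩, hx.2⟩))
        omega
      have h3 := hstep C U hCR hUR hdis h1 hUc h2 hP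
      refine ih (C ∪ U) ?_ (union_subset hCR hUR) ?_ h3
      · have h4 : (R \ (C ∪ U)).card < (R \ C).card := by
          apply card_lt_card
          refine ⟨sdiff_subset_sdiff (subset_refl _) subset_union_left, ?_⟩
          intro h
          obtain ⟨u, hu⟩ := hUc.1
          have := h (hU hu)
          grind
        omega
      · rw [G.e_union_left hdis]
        have h5 := G.e_mono (subset_refl C) (show R \ (C ∪ U) ⊆ R \ C by grind)
        have h6 := G.e_mono (subset_refl U) (show R \ (C ∪ U) ⊆ R \ U by grind)
        omega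
  exact key R.card ∅ (by simp) (empty_subset _) (by simp) h0

/-- if each component of `F` misses `S` or misses `T`, then `F` splits accordingly -/
lemma comp_split {F S T : Finset V}
    (h : ∀ U, U ⊆ F → G.conn U → G.e U (F \ U) = 0 → G.e U S = 0 ∨ G.e U T = 0) :
    ∃ F1 F2, Disjoint F1 F2 ∧ F1 ∪ F2 = F ∧ G.e F1 F2 = 0 ∧ G.e F1 T = 0 ∧ G.e F2 S = 0 := by
  refine comp_induction (G := G) (R := F)
    (fun F => ∃ F1 F2, Disjoint F1 F2 ∧ F1 ∪ F2 = F ∧ G.e F1 F2 = 0 ∧ G.e F1 T = 0 ∧ G.e F2 S = 0)
    ⟨∅, ∅, by simp, by simp, by simp, by simp, by simp⟩ ?_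
  rintro C U hC hU hd h0 hUc hU0 ⟨F1, F2, h1, h2, h3, h4, h5⟩
  have hUF1 : G.e U F1 ≤ G.e U C := G.e_mono (subset_refl _) (h2 ▸ subset_union_left)
  have hUF2 : G.e U F2 ≤ G.e U C := G.e_mono (subset_refl _) (h2 ▸ subset_union_right)
  have hd1 : Disjoint F1 U := hd.mono_left (h2 ▸ subset_union_left)
  have hd2 : Disjoint F2 U := hd.mono_left (h2 ▸ subset_union_right)
  rcases h U hU hUc hU0 with h6 | h6
  · refine ⟨F1, F2 ∪ U, disjoint_union_right.2 ⟨h1, hd1⟩, by rw [← h2, union_assoc], ?_, h4, ?_⟩
    · rw [G.e_union_right hd2, e_comm G F1 U]; omega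
    · rw [G.e_union_left hd2]; omega
  · refine ⟨F1 ∪ U, F2, disjoint_union_left.2 ⟨h1, hd2.symm⟩, ?_, ?_, ?_, h5⟩
    · rw [← h2, union_assoc, union_comm U F2, ← union_assoc]
    · rw [G.e_union_left hd1]; omega
    · rw [G.e_union_left hd1]; omega

/-- Lemma T -/
lemma exists_tec {D : Finset V} : D.Nonempty → Dᶜ.Nonempty →
    ∃ E, E ⊆ D ∧ G.tec E ∧ D.card ≤ E.card * (G.d D - 2) := by
  induction h : D.card using Nat.strong_induction_on generalizing D with
  | _ m ih =>
  intro hD hDc
  by_cases ht : G.tec D
  · refine ⟨D, subset_refl _, ht, ?_⟩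
    have := G.three_le_d hD hDc
    rw [← h]
    exact Nat.le_mul_of_pos_right _ (by omega)
  · unfold tec kc at ht
    push Not at ht
    obtain ⟨S, T, hd, hU, hS, hT, he⟩ := ht hD
    have hc : S.card + T.card = m := by rw [← h, ← hU, card_union_of_disjoint hd]
    have h1 := hS.card_pos
    have h2 := hT.card_pos
    obtain ⟨E1, hE1, ht1, hc1⟩ := ih S.card (by omega) rfl hS (by
      obtain ⟨t, ht⟩ := hT; exact ⟨t, by grind⟩)
    obtain ⟨E2, hE2, ht2, hc2⟩ := ih T.card (by omega) rfl hT (by
      obtain ⟨t, ht⟩ := hS; exact ⟨t, by grind⟩)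
    have h3 : 3 ≤ G.d S := G.three_le_d hS (by obtain ⟨t, ht⟩ := hT; exact ⟨t, by grind⟩)
    have h4 : 3 ≤ G.d T := G.three_le_d hT (by obtain ⟨t, ht⟩ := hS; exact ⟨t, by grind⟩)
    have h5 : G.d S = G.e S T + G.e S Dᶜ := e_eq2 (by rw [← hU]; ext x; grind) (by rw [← hU]; grind)
    have h6 : G.d T = G.e T S + G.e T Dᶜ := e_eq2 (by rw [← hU]; ext x; grind) (by rw [← hU]; grind)
    have h7 : G.d D = G.e S Dᶜ + G.e T Dᶜ := by
      rw [d]; nth_rewrite 1 [← hU]; exact G.e_union_left hd _
    rw [e_comm G T S] at h6
    have h8 : (G.d S - 2) + (G.d T - 2) ≤ G.d D - 2 := by omega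
    rcases le_total E1.card E2.card with hle | hle
    · refine ⟨E2, hE2.trans (hU ▸ subset_union_right), ht2, ?_⟩
      calc m = S.card + T.card := hc.symm
        _ ≤ E1.card * (G.d S - 2) + E2.card * (G.d T - 2) := by omega
        _ ≤ E2.card * (G.d S - 2) + E2.card * (G.d T - 2) := by gcongr
        _ = E2.card * ((G.d S - 2) + (G.d T - 2)) := by ring
        _ ≤ E2.card * (G.d D - 2) := by gcongr
    · refine ⟨E1, hE1.trans (hU ▸ subset_union_left), ht1, ?_⟩
      calc m = S.card + T.card := hc.symm
        _ ≤ E1.card * (G.d S - 2) + E2.card * (G.d T - 2) := by omega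
        _ ≤ E1.card * (G.d S - 2) + E1.card * (G.d T - 2) := by gcongr
        _ = E1.card * ((G.d S - 2) + (G.d T - 2)) := by ring
        _ ≤ E1.card * (G.d D - 2) := by gcongr

lemma tec_compl_single {a : V} (h : ({a}ᶜ : Finset V).Nonempty) : G.tec {a}ᶜ := by
  refine ⟨h, ?_⟩
  intro S T hST hU hS hT
  have haS : a ∉ S := fun h => by
    have : a ∈ ({a}ᶜ : Finset V) := hU ▸ mem_union_left _ h
    simp at this
  have haT : a ∉ T := fun h => by
    have : a ∈ ({a}ᶜ : Finset V) := hU ▸ mem_union_right _ h
    simp at this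
  have hall : ∀ x, x ≠ a → x ∈ S ∨ x ∈ T := fun x hx => by
    rw [← mem_union, hU]; simpa using hx
  have h1 : G.d S = G.e S T + G.e S {a} := e_eq2 (by
    ext x; by_cases hx : x = a
    · subst hx; simp [haS]
    · have := hall x hx; grind) (by grind)
  have h2 : G.d T = G.e T S + G.e T {a} := e_eq2 (by
    ext x; by_cases hx : x = a
    · subst hx; simp [haT]
    · have := hall x hx; grind) (by grind)
  have h3 : 3 ≤ G.d S := G.three_le_d hS (by obtain ⟨t, ht⟩ := hT; exact ⟨t, by grind⟩)
  have h4 : 3 ≤ G.d T := G.three_le_d hT (by obtain ⟨t, ht⟩ := hS; exact ⟨t, by grind⟩)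
  have h5 : G.e {a} S + G.e {a} T ≤ G.e {a} univ := e_ge2 (subset_univ _) (subset_univ _) hST
  rw [e_single_univ, e_comm G {a} S, e_comm G {a} T] at h5
  rw [e_comm G T S] at h2
  omega

/-- the bound of the k-cut lemma -/
def fk (n : ℕ) : ℕ → ℕ
  | 0 => 2
  | k + 1 => fk n k * (k + 3 * n + 2) + n + 1

lemma two_le_fk (n k : ℕ) : 2 ≤ fk n k := by
  induction k with
  | zero => simp [fk]
  | succ k ih => simp only [fk]; nlinarith

lemma fk_succ (n k : ℕ) : 2 * fk n k ≤ fk n (k + 1) := by
  simp only [fk]; nlinarith [two_le_fk n k]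

lemma fk_mono (n : ℕ) {k l : ℕ} (h : k ≤ l) : fk n k ≤ fk n l := by
  induction l, h using Nat.le_induction with
  | base => exact le_rfl
  | succ l _ ih => have := fk_succ n l; omega

/-- growing a set inside one side of a cut -/
lemma pg {n k : ℕ} {Y : Finset V} {a : V} (hY : G.tec Y) (hYc : G.tec Yᶜ) (ha : a ∈ Y)
    (hea : G.e {a} Yᶜ = 1) (hd : G.d Y = k + 1) (hk : 2 ≤ k)
    (hclaim : ∀ E : Finset V, G.d E ≤ k → E.card < fk n k ∨ Eᶜ.card < fk n k)
    (hbig : fk n (k + 1) ≤ Y.card) (hbigc : fk n (k + 1) ≤ Yᶜ.card) :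
    ∃ A, A ⊆ Y ∧ a ∈ A ∧ G.conn A ∧ G.conn (Y \ A) ∧ G.e A Yᶜ = 1 ∧ G.tec Aᶜ ∧ n < A.card := by
  have hf2 := two_le_fk n k
  have hfs := fk_succ n k
  have hYa : (Y \ {a}).Nonempty := by
    rw [← card_pos]
    have := card_sdiff_add_card_eq_card (show {a} ⊆ Y by simpa using ha)
    simp only [card_singleton] at this
    omega
  obtain ⟨A, haA, ⟨hAY, hAc, hDc, heA, hAt⟩, hmax⟩ :=
    exists_max_set (fun A => A ⊆ Y ∧ G.conn A ∧ G.conn (Y \ A) ∧ G.e A Yᶜ = 1 ∧ G.tec Aᶜ)
      (A := {a}) ⟨by simpa using ha, kc_singleton 1 a, conn_erase hY ha hYa, hea,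
        tec_compl_single (by obtain ⟨y, hy⟩ := hYa; exact ⟨y, by grind⟩)⟩
  refine ⟨A, hAY, by simpa using haA, hAc, hDc, heA, hAt, ?_⟩
  by_contra hAn
  push Not at hAn
  obtain ⟨D, hD⟩ : ∃ D, D = Y \ A := ⟨_, rfl⟩
  rw [← hD] at hDc
  have hDY : G.e D Yᶜ = k := by
    have := G.e_split_left hAY Yᶜ
    rw [← hD] at this
    rw [d] at hd
    omega
  have hdD : G.d D ≤ 3 * n + k := by
    have h1 : G.d D = G.e D A + G.e D Yᶜ := e_eq2 (by ext x; grind) (by grind)
    have h2 := G.e_le A D
    rw [e_comm G D A] at h1
    omega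
  have hDcard : D.card + A.card = Y.card := by rw [hD]; exact card_sdiff_add_card_eq_card hAY
  obtain ⟨E0, hE0D, hE0t, hE0c⟩ := exists_tec (G := G) hDc.1 (by
    obtain ⟨y, hy⟩ := hAc.1; exact ⟨y, by grind⟩)
  have hE0big : fk n k ≤ E0.card := by
    by_contra hcon
    push Not at hcon
    have h1 : E0.card * (G.d D - 2) ≤ fk n k * (k + 3 * n + 2) :=
      Nat.mul_le_mul hcon.le (by omega)
    have h2 : fk n (k + 1) = fk n k * (k + 3 * n + 2) + n + 1 := rfl
    omega
  obtain ⟨E, hE0E, ⟨hED, hEt⟩, hEmax⟩ :=
    exists_max_set (fun E => E ⊆ D ∧ G.tec E) (A := E0) ⟨hE0D, hE0t⟩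
  have hEbig : fk n k ≤ E.card := hE0big.trans (card_le_card hE0E)
  have hAY' : ∀ U, U ⊆ D → U.Nonempty → 2 ≤ G.e U (Aᶜ \ U) := by
    intro U hU hUn
    obtain ⟨y, hy⟩ := hYc.1
    exact hAt.cut (by grind) hUn ⟨y, by grind⟩
  -- claim 1
  have hEA : G.e E A = 0 := by
    by_contra hcon
    obtain ⟨q, hqE, c, hc, hw⟩ := G.e_pos.1 (show 0 < G.e E A by omega)
    have hqA : 0 < G.e {q} A := G.e_pos.2 ⟨q, by simp, c, hc, hw⟩
    have hqD : q ∈ D := hED hqE
    have hqY : q ∈ Y := by grind
    have hqnA : q ∉ A := by grind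
    have hEq : (E \ {q}).Nonempty := by
      rw [← card_pos]
      have := card_sdiff_add_card_eq_card (show {q} ⊆ E by simpa using hqE)
      simp only [card_singleton] at this
      omega
    have h1 : 2 ≤ G.e {q} (E \ {q}) := hEt.cut (by grind) (by simp) hEq
    have h3 := G.e_single_univ q
    have h4 := e_eq4 (G := G) (U := {q}) (D := univ \ {q}) (C1 := A) (C2 := E \ {q}) (C3 := D \ E)
      (C4 := Yᶜ) (by ext x; grind) (by grind) (by grind) (by grind)
    have h5 : G.e {q} univ = G.e {q} {q} + G.e {q} (univ \ {q}) := G.e_split_right (by grind) _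
    have hEqc : G.conn (E \ {q}) := conn_erase hEt hqE hEq
    obtain ⟨B1, hYB, hdB, hBt, hKc, hBmax⟩ := hull (G := G) (Y := A ∪ {q}) (B0 := Yᶜ)
      (conn_union hAc (kc_singleton 1 q) (by rw [e_comm]; exact hqA)) hYc (by grind)
    obtain ⟨F, hF⟩ : ∃ F, F = B1ᶜ \ (A ∪ {q}) := ⟨_, rfl⟩
    have hFY : F ⊆ Y := by
      intro x hx
      have h6 : x ∈ B1ᶜ := by grind
      by_contra hxY
      have : x ∈ B1 := hYB (by grind)
      grind
    have hFD : F ⊆ D := by
      intro x hx
      have := hFY hx
      grind
    have hcomp : ∀ U, U ⊆ F → G.conn U → G.e U (F \ U) = 0 →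
        G.e U B1 ≤ 1 ∧ 2 ≤ G.e U {q} + G.e U B1 := by
      intro U hU hUc hU0
      constructor
      · by_contra hcon
        obtain ⟨M', hM'U, hM'n, hM't⟩ := ear hBt hUc (by grind) (by omega : 2 ≤ G.e U B1)
        have := hBmax (B1 ∪ M') subset_union_left (by grind) hM't
        obtain ⟨m, hm⟩ := hM'n
        have h3 : m ∈ B1 ∪ M' := mem_union_right _ hm
        rw [this] at h3
        have h4 : m ∈ F := hU (hM'U hm)
        rw [hF] at h4
        exact (mem_compl.1 (mem_sdiff.1 h4).1) h3
      · have h2 := hAY' U (hU.trans hFD) hUc.1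
        have h3 := e_le3 (G := G) (U := U) (show Aᶜ \ U ⊆ (F \ U) ∪ {q} ∪ B1 by
          intro x hx
          obtain ⟨hxA, hxU⟩ := mem_sdiff.1 hx
          by_cases hxB : x ∈ B1
          · exact mem_union_right _ hxB
          · apply mem_union_left
            by_cases hxq : x = q
            · exact mem_union_right _ (by simpa using hxq)
            · apply mem_union_left
              rw [mem_sdiff]
              refine ⟨?_, hxU⟩
              rw [hF, mem_sdiff, mem_compl, mem_union, mem_singleton]
              exact ⟨hxB, fun h => h.elim (mem_compl.1 hxA) hxq⟩)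
        omega
    have hFY0 : G.e F Yᶜ = 0 := by
      have key : G.e F Yᶜ ≤ G.e F ∅ := by
        refine ci ?_
        intro U hU hUc hU0
        rw [e_empty_right, Nat.le_zero]
        obtain ⟨h6, h7⟩ := hcomp U hU hUc hU0
        by_contra hUY
        have h8 : G.e U Yᶜ ≤ G.e U B1 := G.e_mono (subset_refl _) hYB
        -- E minus q inside U
        have h9 : E \ {q} ⊆ U := by
          by_contra hcon2
          have hne : (U ∩ (E \ {q})).Nonempty := by
            have h10 : 0 < G.e {q} U := by rw [e_comm]; omega
            obtain ⟨q', hq', u, hu, hw'⟩ := G.e_pos.1 h10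
            rw [mem_singleton] at hq'
            subst hq'
            by_contra hcon3
            rw [not_nonempty_iff_eq_empty] at hcon3
            have h11 : u ∈ D \ E := by
              have : u ∉ U ∩ (E \ {q'}) := by rw [hcon3]; simp
              have h12 : u ∈ F := hU hu
              have h13 : u ∈ D := hFD h12
              have h14 : u ≠ q' := by
                intro h15; subst h15; rw [hF] at h12; simp at h12
              have h16 : u ∉ E := by
                intro h17
                apply this
                rw [mem_inter, mem_sdiff, mem_singleton]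
                exact ⟨hu, h17, h14⟩
              rw [mem_sdiff]
              exact ⟨h13, h16⟩
            have h12 : 0 < G.e {q'} (D \ E) := G.e_pos.2 ⟨q', by simp, u, h11, hw'⟩
            omega
          have hcon2' : ((E \ {q}) \ U).Nonempty := by
            obtain ⟨x, hx, hx'⟩ := Finset.not_subset.1 hcon2
            exact ⟨x, mem_sdiff.2 ⟨hx, hx'⟩⟩
          have h10 : 1 ≤ G.e (U ∩ (E \ {q})) ((E \ {q}) \ (U ∩ (E \ {q}))) :=
            hEqc.cut inter_subset_right hne (by
              obtain ⟨x, hx⟩ := hcon2'; exact ⟨x, by grind⟩)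
          have h11 : G.e (U ∩ (E \ {q})) ((E \ {q}) \ (U ∩ (E \ {q}))) ≤
              G.e U ((F \ U) ∪ (B1 \ Yᶜ)) := G.e_mono inter_subset_left (by
              intro x hx
              have hxE : x ∈ E := by grind
              have hxD : x ∈ D := hED hxE
              by_cases hxB : x ∈ B1
              · grind
              · have : x ∈ F := by grind
                grind)
          have h12 := e_le2 (G := G) (U := U) (subset_refl ((F \ U) ∪ (B1 \ Yᶜ)))
          have h13 : G.e U B1 = G.e U Yᶜ + G.e U (B1 \ Yᶜ) := G.e_split_right hYB _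
          omega
        -- F = U
        have h10 : F ⊆ U := by
          by_contra hcon2
          obtain ⟨x, hx, hx'⟩ := Finset.not_subset.1 hcon2
          obtain ⟨U', hU'F, hU'c, hU'0⟩ := exists_comp (G := G) (R := F \ U) ⟨x, mem_sdiff.2 ⟨hx, hx'⟩⟩
          have h11 : G.e U' (F \ U') = 0 := by
            have h12 := e_le2 (G := G) (U := U') (show F \ U' ⊆ ((F \ U) \ U') ∪ U by grind)
            have h13 : G.e U' U ≤ G.e (F \ U) U := G.e_mono hU'F (subset_refl _)
            rw [e_comm G (F \ U) U] at h13
            omega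
          obtain ⟨h12, h13⟩ := hcomp U' (hU'F.trans sdiff_subset) hU'c h11
          have h14 : 0 < G.e {q} U' := by rw [e_comm]; omega
          have h15 : G.e {q} U' ≤ G.e {q} (D \ E) := G.e_mono (subset_refl _) (by
            intro x hx
            have hx1 : x ∈ F := (mem_sdiff.1 (hU'F hx)).1
            have hx2 : x ∉ U := (mem_sdiff.1 (hU'F hx)).2
            have hx3 : x ∈ D := hFD hx1
            have hx4 : x ∉ E := by
              intro hxE
              apply hx2
              apply h9
              rw [mem_sdiff, mem_singleton]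
              refine ⟨hxE, ?_⟩
              intro hxq
              rw [hF] at hx1
              rw [hxq] at hx1
              simp at hx1
            rw [mem_sdiff]; exact ⟨hx3, hx4⟩)
          omega
        have hFU : F = U := subset_antisymm h10 hU
        -- now D \ K is empty
        obtain ⟨C, hC⟩ : ∃ C, C = B1 \ Yᶜ := ⟨_, rfl⟩
        have h13 : G.e U B1 = G.e U Yᶜ + G.e U (B1 \ Yᶜ) := G.e_split_right hYB _
        have hCe : ¬ C.Nonempty := by
          intro hCn
          have hCD : C ⊆ D := by
            intro x hx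
            rw [hC, mem_sdiff, mem_compl, not_not] at hx
            rw [hD, mem_sdiff]
            exact ⟨hx.2, fun h => Finset.disjoint_left.1 hdB (mem_union_left _ h) hx.1⟩
          have h14 : 1 ≤ G.e C (D \ C) := hDc.cut hCD hCn ⟨q, by grind⟩
          have h15 := e_le2 (G := G) (U := C) (show D \ C ⊆ F ∪ {q} by
            intro x hx
            have hx1 : x ∈ D := by grind
            have hx2 : x ∉ C := by grind
            have hx3 : x ∈ Y := by grind
            have hx4 : x ∉ B1 := by grind
            have hx5 : x ∉ A := by grind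
            rw [mem_union, mem_singleton]
            by_cases hxq : x = q
            · right; exact hxq
            · left; rw [hF]; grind)
          rw [hFU, e_comm G C U, e_comm G C {q}, hC] at h15
          have h16 : G.e {q} (B1 \ Yᶜ) ≤ G.e {q} (D \ E) := G.e_mono (subset_refl _) (by
            intro x hx
            have hx0 : x ∈ C := by rw [hC]; exact hx
            have hx1 : x ∈ D := hCD hx0
            have hxB : x ∈ B1 := (mem_sdiff.1 hx).1
            have hx4 : x ∉ E := by
              intro hxE
              have hxq : x ≠ q := by rintro rfl; grind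
              have := h9 (mem_sdiff.2 ⟨hxE, by simpa using hxq⟩)
              have := hU this
              grind
            rw [mem_sdiff]; exact ⟨hx1, hx4⟩)
          rw [hC] at h14
          omega
        rw [not_nonempty_iff_eq_empty] at hCe
        have hY1 : Y ⊆ A ∪ {q} ∪ F := by
          intro x hx
          have hx4 : x ∉ B1 := by
            intro hxB
            have : x ∈ C := by rw [hC]; grind
            rw [hCe] at this
            simp at this
          grind
        have h14 := e_le3 (G := G) (U := Yᶜ) hY1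
        have h15 : G.d Y = G.e Y Yᶜ := rfl
        rw [e_comm G Yᶜ Y, e_comm G Yᶜ A, e_comm G Yᶜ {q}, e_comm G Yᶜ F, hFU] at h14
        omega
      rw [e_empty_right] at key
      omega
    -- K := B1ᶜ is in the family
    have hKY : B1ᶜ ⊆ Y := by
      intro x hx
      by_contra hxY
      have : x ∈ B1 := hYB (by grind)
      grind
    have hKe : G.e B1ᶜ Yᶜ = 1 := by
      have h6 : G.e Yᶜ B1ᶜ = G.e Yᶜ A + G.e Yᶜ {q} + G.e Yᶜ F := e_eq3 (by ext x; grind)
        (by grind) (by grind)
      rw [e_comm G Yᶜ B1ᶜ, e_comm G Yᶜ A, e_comm G Yᶜ {q}, e_comm G Yᶜ F] at h6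
      omega
    have hKconn : G.conn (Y \ B1ᶜ) := by
      refine ⟨?_, ?_⟩
      · by_contra hcon
        rw [not_nonempty_iff_eq_empty, sdiff_eq_empty_iff_subset] at hcon
        have : Y = B1ᶜ := subset_antisymm hcon hKY
        have h15 : G.d Y = G.e Y Yᶜ := rfl
        rw [← this] at hKe
        omega
      · intro S T hST hU hS hT
        by_contra hcon
        have h0 : G.e S T = 0 := by omega
        have hSB : S ⊆ B1 := by
          intro x hx
          have : x ∈ Y \ B1ᶜ := hU ▸ mem_union_left _ hx
          grind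
        have hTB : T ⊆ B1 := by
          intro x hx
          have : x ∈ Y \ B1ᶜ := hU ▸ mem_union_right _ hx
          grind
        have hSTY : S ∪ T ⊆ Y := by rw [hU]; exact sdiff_subset
        obtain ⟨F1, F2, hF12, hFU, hF0, hF1T, hF2S⟩ := comp_split (G := G) (F := F) (S := S) (T := T)
          (by
            intro U hU' hUc hU0
            obtain ⟨h6, h7⟩ := hcomp U hU' hUc hU0
            have h8 : G.e U S + G.e U T ≤ G.e U B1 := e_ge2 hSB hTB hST
            omega)
        have hF1F : F1 ⊆ F := hFU ▸ subset_union_left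
        have hF2F : F2 ⊆ F := hFU ▸ subset_union_right
        have hSA : Disjoint S (A ∪ {q}) := by grind
        have hTA : Disjoint T (A ∪ {q}) := by grind
        have hFB : Disjoint F B1 := by grind
        have hFA : Disjoint F (A ∪ {q}) := by grind
        -- the two sides
        have hLR : G.e (S ∪ F1) (T ∪ F2) = 0 := by
          have hd1 : Disjoint S F1 := (hFB.mono_left hF1F).symm.mono_left hSB
          have hd2 : Disjoint T F2 := (hFB.mono_left hF2F).symm.mono_left hTB
          rw [G.e_union_left hd1, G.e_union_right hd2, G.e_union_right hd2, e_comm G S F2]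
          omega
        have hdLR : Disjoint (S ∪ F1) (T ∪ F2) := by
          rw [disjoint_union_left, disjoint_union_right, disjoint_union_right]
          exact ⟨⟨hST, (hFB.mono_left hF2F).symm.mono_left hSB⟩,
            ⟨(hFB.mono_left hF1F).mono_right hTB, hF12⟩⟩
        have hcov : E \ {q} ⊆ (S ∪ F1) ∪ (T ∪ F2) := by
          intro x hx
          have hxE : x ∈ E := (mem_sdiff.1 hx).1
          have hxq : x ∉ ({q} : Finset V) := (mem_sdiff.1 hx).2
          have hxD : x ∈ D := hED hxE
          have hxY : x ∈ Y := by rw [hD] at hxD; exact (mem_sdiff.1 hxD).1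
          have hxA : x ∉ A := by rw [hD] at hxD; exact (mem_sdiff.1 hxD).2
          by_cases hxB : x ∈ B1
          · have : x ∈ S ∪ T := by rw [hU, mem_sdiff, mem_compl]; exact ⟨hxY, fun h => h hxB⟩
            rcases mem_union.1 this with h | h
            · exact mem_union_left _ (mem_union_left _ h)
            · exact mem_union_right _ (mem_union_left _ h)
          · have : x ∈ F1 ∪ F2 := by
              rw [hFU, hF, mem_sdiff, mem_compl, mem_union]
              exact ⟨hxB, fun h => h.elim hxA hxq⟩
            rcases mem_union.1 this with h | h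
            · exact mem_union_left _ (mem_union_right _ h)
            · exact mem_union_right _ (mem_union_right _ h)
        have fin : ∀ L R : Finset V, Disjoint L R → L ∪ R = (S ∪ F1) ∪ (T ∪ F2) → G.e L R = 0 →
            R.Nonempty → E \ {q} ⊆ L → False := by
          intro L R hLR hLRU hLR0 hR hEL
          have hLRD : L ∪ R ⊆ D := by
            rw [hLRU]
            intro x hx
            rw [hD, mem_sdiff]
            rcases mem_union.1 hx with h | h <;> rcases mem_union.1 h with h | h
            · exact ⟨hSTY (mem_union_left _ h), fun h' => Finset.disjoint_left.1 hSA h (mem_union_left _ h')⟩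
            · exact ⟨hFY (hF1F h), fun h' => Finset.disjoint_left.1 hFA (hF1F h) (mem_union_left _ h')⟩
            · exact ⟨hSTY (mem_union_right _ h), fun h' => Finset.disjoint_left.1 hTA h (mem_union_left _ h')⟩
            · exact ⟨hFY (hF2F h), fun h' => Finset.disjoint_left.1 hFA (hF2F h) (mem_union_left _ h')⟩
          have hqLR : q ∉ L ∪ R := by
            rw [hLRU]
            intro hx
            rcases mem_union.1 hx with h | h <;> rcases mem_union.1 h with h | h
            · exact Finset.disjoint_left.1 hSA h (mem_union_right _ (mem_singleton_self q))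
            · exact Finset.disjoint_left.1 hFA (hF1F h) (mem_union_right _ (mem_singleton_self q))
            · exact Finset.disjoint_left.1 hTA h (mem_union_right _ (mem_singleton_self q))
            · exact Finset.disjoint_left.1 hFA (hF2F h) (mem_union_right _ (mem_singleton_self q))
          have h14 : 1 ≤ G.e R (D \ R) := hDc.cut (subset_union_right.trans hLRD) hR
            ⟨q, mem_sdiff.2 ⟨hqD, fun h => hqLR (mem_union_right _ h)⟩⟩
          have hDcov : D \ R ⊆ L ∪ {q} := by
            intro x hx
            obtain ⟨hxD, hxR⟩ := mem_sdiff.1 hx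
            have hxY : x ∈ Y := by rw [hD] at hxD; exact (mem_sdiff.1 hxD).1
            have hxA : x ∉ A := by rw [hD] at hxD; exact (mem_sdiff.1 hxD).2
            by_cases hxq : x = q
            · exact mem_union_right _ (by simpa using hxq)
            · have hxLR : x ∈ L ∪ R := by
                rw [hLRU]
                by_cases hxB : x ∈ B1
                · have : x ∈ S ∪ T := by rw [hU, mem_sdiff, mem_compl]; exact ⟨hxY, fun h => h hxB⟩
                  rcases mem_union.1 this with h | h
                  · exact mem_union_left _ (mem_union_left _ h)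
                  · exact mem_union_right _ (mem_union_left _ h)
                · have : x ∈ F1 ∪ F2 := by
                    rw [hFU, hF, mem_sdiff, mem_compl, mem_union, mem_singleton]
                    exact ⟨hxB, fun h => h.elim hxA hxq⟩
                  rcases mem_union.1 this with h | h
                  · exact mem_union_left _ (mem_union_right _ h)
                  · exact mem_union_right _ (mem_union_right _ h)
              rcases mem_union.1 hxLR with h | h
              · exact mem_union_left _ h
              · exact (hxR h).elim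
          have h15 := e_le2 (G := G) (U := R) hDcov
          have h16 : G.e {q} R ≤ G.e {q} (D \ E) := G.e_mono (subset_refl _) (by
            intro x hx
            rw [mem_sdiff]
            refine ⟨hLRD (mem_union_right _ hx), ?_⟩
            intro hxE
            have hxq : x ≠ q := by rintro rfl; exact hqLR (mem_union_right _ hx)
            have := hEL (mem_sdiff.2 ⟨hxE, by simpa using hxq⟩)
            exact Finset.disjoint_left.1 hLR this hx)
          rw [e_comm G R L, e_comm G R {q}] at h15
          omega
        rcases conn_side hEqc hcov hdLR hLR with h | h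
        · exact fin _ _ hdLR rfl hLR (hT.mono subset_union_left) h
        · exact fin _ _ hdLR.symm (union_comm _ _) (by rw [e_comm]; exact hLR)
            (hS.mono subset_union_left) h
    have hKA : A ⊆ B1ᶜ := by
      intro x hx
      rw [mem_compl]
      exact Finset.disjoint_left.1 hdB (mem_union_left _ hx)
    have := hmax B1ᶜ hKA ⟨hKY, hKc, hKconn, hKe, by rw [compl_compl]; exact hBt⟩
    apply hqnA
    rw [← this, mem_compl]
    exact Finset.disjoint_left.1 hdB (mem_union_right _ (mem_singleton_self q))
  -- claim 2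
  have hci : G.e (D \ E) E ≤ G.e (D \ E) Yᶜ := by
    refine ci ?_
    intro U hU hUc hU0
    have h1 : G.e U E ≤ 1 := by
      by_contra hcon
      obtain ⟨M', hM'U, hM'n, hM't⟩ := ear hEt hUc (by grind) (by omega : 2 ≤ G.e U E)
      have := hEmax (E ∪ M') subset_union_left ⟨by grind, hM't⟩
      obtain ⟨m, hm⟩ := hM'n
      have h3 : m ∈ E ∪ M' := mem_union_right _ hm
      rw [this] at h3
      grind
    have h2 := hAY' U (hU.trans sdiff_subset) hUc.1
    have h3 := e_le3 (G := G) (U := U) (show Aᶜ \ U ⊆ ((D \ E) \ U) ∪ E ∪ Yᶜ by grind)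
    omega
  have hdE : G.d E = G.e E A + G.e E (D \ E) + G.e E Yᶜ :=
    e_eq3 (by ext x; grind) (by grind) (by grind)
  have h4 : G.e D Yᶜ = G.e E Yᶜ + G.e (D \ E) Yᶜ := G.e_split_left hED _
  rw [e_comm G E (D \ E)] at hdE
  have hEY : E ⊆ Y := hED.trans (by rw [hD]; exact sdiff_subset)
  have h5 : Yᶜ.card ≤ Eᶜ.card := card_le_card (compl_subset_compl.2 hEY)
  rcases hclaim E (by omega) with h | h
  · omega
  · omega

end Cub

end Run7.h672
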