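import Pool.Agent.Run7.h672.KCut

open Finset

namespace Run7.h672

variable {V : Type*} [Fintype V] [DecidableEq V]

attribute [local grind =] Finset.mem_compl Finset.disjoint_left

namespace Cub

variable {G : Cub V}

/-- if `D1`, `D2` are connected parts of a bipartition and the two grown sets have 2-edge-connected
complements, then `D1 ∪ D2` is 2-edge-connected -/
lemma tec_glue {A1 A2 D1 D2 : Finset V} (hD1 : G.conn D1) (hD2 : G.conn D2)
    (h12 : Disjoint D1 D2) (h1 : Disjoint (D1 ∪ D2) A1) (h2 : Disjoint (D1 ∪ D2) A2)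
    (hA1 : G.tec ((D1 ∪ D2) ∪ A2)) (hA2 : G.tec ((D1 ∪ D2) ∪ A1))
    (he1 : G.e D1 A2 = 0) (he2 : G.e D2 A1 = 0) : G.tec (D1 ∪ D2) := by
  refine ⟨hD1.1.mono subset_union_left, ?_⟩
  have key : ∀ S T : Finset V, Disjoint S T → S ∪ T = D1 ∪ D2 → S.Nonempty → T.Nonempty →
      G.e S T ≤ 1 → D2 ⊆ T → False := by
    intro S T hST hU hS hT he hD2T
    have hS1 : S ⊆ D1 := by
      intro x hx
      have : x ∈ D1 ∪ D2 := hU ▸ mem_union_left _ hx
      rcases mem_union.1 this with h | h
      · exact h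
      · exact (Finset.disjoint_left.1 hST hx (hD2T h)).elim
    have hSA : Disjoint S A2 := h2.mono_left (hS1.trans subset_union_left)
    have hTA : Disjoint T A2 := h2.mono_left (hU ▸ subset_union_right)
    have h3 := hA1.2 S (T ∪ A2) (disjoint_union_right.2 ⟨hST, hSA⟩)
      (by rw [← union_assoc, hU]) hS (hT.mono subset_union_left)
    rw [G.e_union_right hTA] at h3
    have h4 : G.e S A2 ≤ G.e D1 A2 := G.e_mono hS1 (subset_refl _)
    omega
  have key2 : ∀ S T : Finset V, Disjoint S T → S ∪ T = D1 ∪ D2 → S.Nonempty → T.Nonempty →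
      G.e S T ≤ 1 → D1 ⊆ T → False := by
    intro S T hST hU hS hT he hD1T
    have hS2 : S ⊆ D2 := by
      intro x hx
      have : x ∈ D1 ∪ D2 := hU ▸ mem_union_left _ hx
      rcases mem_union.1 this with h | h
      · exact (Finset.disjoint_left.1 hST hx (hD1T h)).elim
      · exact h
    have hSA : Disjoint S A1 := h1.mono_left (hS2.trans subset_union_right)
    have hTA : Disjoint T A1 := h1.mono_left (hU ▸ subset_union_right)
    have h3 := hA2.2 S (T ∪ A1) (disjoint_union_right.2 ⟨hST, hSA⟩)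
      (by rw [← union_assoc, hU]) hS (hT.mono subset_union_left)
    rw [G.e_union_right hTA] at h3
    have h4 : G.e S A1 ≤ G.e D2 A1 := G.e_mono hS2 (subset_refl _)
    omega
  intro S T hST hU hS hT
  by_contra hcon
  have he : G.e S T ≤ 1 := by omega
  have he' : G.e T S ≤ 1 := by rw [e_comm]; exact he
  have hmem : ∀ x, x ∈ D1 ∪ D2 → x ∈ S ∨ x ∈ T := fun x hx => by rw [← mem_union, hU]; exact hx
  have a1 : (S ∩ D1).Nonempty := by
    by_contra h
    refine key2 S T hST hU hS hT he ?_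
    intro x hx
    rcases hmem x (mem_union_left _ hx) with h' | h'
    · exact (h ⟨x, mem_inter.2 ⟨h', hx⟩⟩).elim
    · exact h'
  have a2 : (T ∩ D1).Nonempty := by
    by_contra h
    refine key2 T S hST.symm (by rw [union_comm]; exact hU) hT hS he' ?_
    intro x hx
    rcases hmem x (mem_union_left _ hx) with h' | h'
    · exact h'
    · exact (h ⟨x, mem_inter.2 ⟨h', hx⟩⟩).elim
  have a3 : (S ∩ D2).Nonempty := by
    by_contra h
    refine key S T hST hU hS hT he ?_
    intro x hx
    rcases hmem x (mem_union_right _ hx) with h' | h'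
    · exact (h ⟨x, mem_inter.2 ⟨h', hx⟩⟩).elim
    · exact h'
  have a4 : (T ∩ D2).Nonempty := by
    by_contra h
    refine key T S hST.symm (by rw [union_comm]; exact hU) hT hS he' ?_
    intro x hx
    rcases hmem x (mem_union_right _ hx) with h' | h'
    · exact h'
    · exact (h ⟨x, mem_inter.2 ⟨h', hx⟩⟩).elim
  have b1 := hD1.2 (S ∩ D1) (T ∩ D1) (hST.mono inter_subset_left inter_subset_left)
    (by rw [← union_inter_distrib_right, hU]; exact inter_eq_right.2 subset_union_left) a1 a2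
  have b2 := hD2.2 (S ∩ D2) (T ∩ D2) (hST.mono inter_subset_left inter_subset_left)
    (by rw [← union_inter_distrib_right, hU]; exact inter_eq_right.2 subset_union_right) a3 a4
  have hd : Disjoint (S ∩ D1) (S ∩ D2) := h12.mono inter_subset_right inter_subset_right
  have b3 : G.e (S ∩ D1) T + G.e (S ∩ D2) T ≤ G.e S T := by
    rw [← G.e_union_left hd]
    exact G.e_mono (union_subset inter_subset_left inter_subset_left) (subset_refl _)
  have b4 := G.e_mono (subset_refl (S ∩ D1)) (inter_subset_left : T ∩ D1 ⊆ T)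
  have b5 := G.e_mono (subset_refl (S ∩ D2)) (inter_subset_left : T ∩ D2 ⊆ T)
  omega

lemma e_single_cut {Y : Finset V} {a b : V} (hY : G.tec Y) (ha : a ∈ Y) (hb : b ∉ Y)
    (hw : 0 < G.w a b) (hc : 2 ≤ Y.card) : G.e {a} Yᶜ = 1 := by
  have h1 : 0 < G.e {a} Yᶜ := G.e_pos.2 ⟨a, by simp, b, by simpa using hb, hw⟩
  have h2 : (Y \ {a}).Nonempty := by
    rw [← card_pos]
    have := card_sdiff_add_card_eq_card (show {a} ⊆ Y by simpa using ha)
    simp only [card_singleton] at this
    omega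
  have h3 : 2 ≤ G.e {a} (Y \ {a}) := hY.cut (by simpa using ha) (by simp) h2
  have h4 : G.e {a} (Y \ {a}) + G.e {a} Yᶜ ≤ G.e {a} univ :=
    e_ge2 (subset_univ _) (subset_univ _) (by grind)
  rw [e_single_univ] at h4
  omega

lemma empty_of_d {Y : Finset V} (h : G.d Y ≤ 2) : Y.card = 0 ∨ Yᶜ.card = 0 := by
  by_contra hcon
  push Not at hcon
  have := G.three_le_d (card_pos.1 (Nat.pos_of_ne_zero hcon.1))
    (card_pos.1 (Nat.pos_of_ne_zero hcon.2))
  omega

lemma kcut {n : ℕ} (hn : 1 ≤ n) (hno : ∀ W, G.Fam W → W.card ≠ n) :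
    ∀ (k : ℕ) (Y : Finset V), G.d Y ≤ k → Y.card < fk n k ∨ Yᶜ.card < fk n k := by
  intro k
  induction k with
  | zero =>
    intro Y hY
    have h2 := two_le_fk n 0
    rcases empty_of_d (show G.d Y ≤ 2 by omega) with h | h <;> omega
  | succ k ih =>
    intro Y hY
    have h2 := two_le_fk n (k + 1)
    have hs := fk_succ n k
    by_cases hk : G.d Y ≤ 2
    · rcases empty_of_d hk with h | h <;> omega
    by_cases hk' : G.d Y ≤ k
    · rcases ih Y hk' with h | h <;> omega
    have hdY : G.d Y = k + 1 := by omega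
    by_contra hcon
    push Not at hcon
    obtain ⟨hbig, hbigc⟩ := hcon
    have htec : ∀ Y : Finset V, G.d Y = k + 1 → fk n (k + 1) ≤ Y.card →
        fk n (k + 1) ≤ Yᶜ.card → G.tec Y := by
      intro Y hd hb hbc
      refine ⟨card_pos.1 (by omega), ?_⟩
      intro S T hST hU hS hT
      by_contra hcon
      have h5 : G.d S = G.e S T + G.e S Yᶜ :=
        e_eq2 (by rw [← hU]; ext x; grind) (by rw [← hU]; grind)
      have h6 : G.d T = G.e T S + G.e T Yᶜ :=
        e_eq2 (by rw [← hU]; ext x; grind) (by rw [← hU]; grind)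
      have h7 : G.d Y = G.e S Yᶜ + G.e T Yᶜ := by
        rw [d]; nth_rewrite 1 [← hU]; exact G.e_union_left hST _
      rw [e_comm G T S] at h6
      have h3 : 3 ≤ G.d S := G.three_le_d hS (by obtain ⟨t, ht⟩ := hT; exact ⟨t, by grind⟩)
      have h4 : 3 ≤ G.d T := G.three_le_d hT (by obtain ⟨t, ht⟩ := hS; exact ⟨t, by grind⟩)
      have hc : S.card + T.card = Y.card := by rw [← hU, card_union_of_disjoint hST]
      have hcS : Yᶜ.card ≤ Sᶜ.card :=
        card_le_card (compl_subset_compl.2 (hU ▸ subset_union_left))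
      have hcT : Yᶜ.card ≤ Tᶜ.card :=
        card_le_card (compl_subset_compl.2 (hU ▸ subset_union_right))
      have := ih S (by omega)
      have := ih T (by omega)
      omega
    have hYt := htec Y hdY hbig hbigc
    have hYct := htec Yᶜ (by rw [d_compl]; exact hdY) hbigc (by rw [compl_compl]; exact hbig)
    obtain ⟨a, ha, a', ha', hw⟩ := G.e_pos.1 (show 0 < G.e Y Yᶜ by rw [d] at hdY; omega)
    have hea : G.e {a} Yᶜ = 1 := e_single_cut hYt ha (mem_compl.1 ha') hw (by omega)
    have hea' : G.e {a'} Yᶜᶜ = 1 := e_single_cut hYct ha' (by rw [mem_compl, not_not]; exact ha)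
      (by rw [G.symm]; exact hw) (by omega)
    obtain ⟨A1, hA1Y, haA1, hA1c, hD1c, heA1, hA1t, hA1n⟩ :=
      pg hYt hYct ha hea hdY (by omega) ih hbig hbigc
    obtain ⟨A2, hA2Y, haA2, hA2c, hD2c, heA2, hA2t, hA2n⟩ :=
      pg hYct (by rw [compl_compl]; exact hYt) ha' hea' (by rw [d_compl]; exact hdY) (by omega)
        ih hbigc (by rw [compl_compl]; exact hbig)
    rw [compl_compl] at heA2
    have hd12 : Disjoint A1 A2 := by grind
    have he12 : 1 ≤ G.e A1 A2 := G.e_pos.2 ⟨a, haA1, a', haA2, hw⟩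
    have h1 : G.e A1 Yᶜ = G.e A1 A2 + G.e A1 (Yᶜ \ A2) := G.e_split_right hA2Y _
    have h3 : G.e A2 Y = G.e A2 A1 + G.e A2 (Y \ A1) := G.e_split_right hA1Y _
    rw [e_comm G A2 A1, e_comm G A2 (Y \ A1)] at h3
    rw [e_comm G A1 (Yᶜ \ A2)] at h1
    have hHc : (A1 ∪ A2)ᶜ = (Y \ A1) ∪ (Yᶜ \ A2) := by ext x; grind
    have hH : G.Fam (A1 ∪ A2) := by
      refine ⟨conn_union hA1c hA2c (by omega), ?_⟩
      rw [hHc]
      refine tec_glue (A1 := A1) (A2 := A2) hD1c hD2c (by grind) (by grind) (by grind) ?_ ?_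
        (by omega) (by omega)
      · have : ((Y \ A1) ∪ (Yᶜ \ A2)) ∪ A2 = A1ᶜ := by ext x; grind
        rw [this]; exact hA1t
      · have : ((Y \ A1) ∪ (Yᶜ \ A2)) ∪ A1 = A2ᶜ := by ext x; grind
        rw [this]; exact hA2t
    obtain ⟨W, hW, hWn⟩ := bridge_lemma hH hd12 rfl (by omega) n hn hA1n hA2n
    exact hno W hW hWn

end Cub

end Run7.h672
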