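import Pool.Agent.Run7.h672.KCut2

open Finset

namespace Run7.h672

variable {V : Type*} [Fintype V] [DecidableEq V]

attribute [local grind =] Finset.mem_compl Finset.disjoint_left

namespace Cub

variable {G : Cub V}

lemma exists_comp_ge {X R : Finset V} (hX : G.conn X) (h : X ⊆ R) :
    ∃ C, X ⊆ C ∧ C ⊆ R ∧ G.conn C ∧ G.e C (R \ C) = 0 := by
  obtain ⟨C, hXC, ⟨hCR, hCc⟩, hmax⟩ :=
    exists_max_set (fun C => C ⊆ R ∧ G.conn C) (A := X) ⟨h, hX⟩
  refine ⟨C, hXC, hCR, hCc, ?_⟩
  by_contra hcon
  obtain ⟨c, hc, r, hr, hw⟩ := G.e_pos.1 (Nat.pos_of_ne_zero hcon)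
  have h1 : G.conn (C ∪ {r}) := conn_union hCc (kc_singleton 1 r)
    (G.e_pos.2 ⟨c, hc, r, mem_singleton_self r, hw⟩)
  have h2 := hmax (C ∪ {r}) subset_union_left ⟨union_subset hCR (by
    rw [singleton_subset_iff]; exact (mem_sdiff.1 hr).1), h1⟩
  apply (mem_sdiff.1 hr).2
  rw [← h2]
  exact mem_union_right _ (mem_singleton_self r)

lemma exists_conn_card {X C : Finset V} (hX : G.conn X) (hC : G.conn C) (h : X ⊆ C) (m : ℕ)
    (h1 : X.card ≤ m) (h2 : m ≤ C.card) : ∃ Z, X ⊆ Z ∧ Z ⊆ C ∧ G.conn Z ∧ Z.card = m := by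
  induction m, h1 using Nat.le_induction with
  | base => exact ⟨X, subset_refl _, h, hX, rfl⟩
  | succ m hm ih =>
    obtain ⟨Z, hXZ, hZC, hZc, hZm⟩ := ih (by omega)
    have hne : (C \ Z).Nonempty := by
      rw [← card_pos]
      have := card_sdiff_add_card_eq_card hZC
      omega
    have h3 := hC.cut hZC hZc.1 hne
    obtain ⟨z, hz, c, hc, hw⟩ := G.e_pos.1 (show 0 < G.e Z (C \ Z) by omega)
    obtain ⟨hcC, hcZ⟩ := mem_sdiff.1 hc
    refine ⟨Z ∪ {c}, hXZ.trans subset_union_left, union_subset hZC (by simpa using hcC),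
      conn_union hZc (kc_singleton 1 c) (G.e_pos.2 ⟨z, hz, c, mem_singleton_self c, hw⟩), ?_⟩
    rw [card_union_of_disjoint (by simpa using hcZ), card_singleton, hZm]

/-- if `C` is connected, and the part `C ∩ P` attaches to the rest only at `x`, the rest is
connected -/
lemma conn_rest {C P : Finset V} {x : V} (hC : G.conn C) (hxC : x ∈ C) (hxP : x ∉ P)
    (h : G.e (C ∩ P) ((C \ P) \ {x}) = 0) : G.conn (C \ P) := by
  refine ⟨⟨x, mem_sdiff.2 ⟨hxC, hxP⟩⟩, ?_⟩
  have key : ∀ S T : Finset V, Disjoint S T → S ∪ T = C \ P → T.Nonempty → G.e S T = 0 →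
      x ∈ S → False := by
    intro S T hST hU hT h0 hxS
    have hTC : T ⊆ C \ P := hU ▸ subset_union_right
    have hSC : S ⊆ C \ P := hU ▸ subset_union_left
    have h1 := hC.cut (hTC.trans sdiff_subset) hT ⟨x, mem_sdiff.2 ⟨hxC, fun h' =>
      Finset.disjoint_left.1 hST hxS h'⟩⟩
    have h2 := e_le2 (G := G) (U := T) (show C \ T ⊆ S ∪ (C ∩ P) by
      intro y hy
      obtain ⟨hyC, hyT⟩ := mem_sdiff.1 hy
      by_cases hyP : y ∈ P
      · exact mem_union_right _ (mem_inter.2 ⟨hyC, hyP⟩)
      · have : y ∈ S ∪ T := by rw [hU]; exact mem_sdiff.2 ⟨hyC, hyP⟩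
        rcases mem_union.1 this with h' | h'
        · exact mem_union_left _ h'
        · exact (hyT h').elim)
    have h3 : G.e (C ∩ P) T ≤ G.e (C ∩ P) ((C \ P) \ {x}) := G.e_mono (subset_refl _) (by
      intro y hy
      refine mem_sdiff.2 ⟨hTC hy, ?_⟩
      rw [mem_singleton]; rintro rfl
      exact Finset.disjoint_left.1 hST hxS hy)
    rw [e_comm G T S, e_comm G T (C ∩ P)] at h2
    omega
  intro S T hST hU hS hT
  by_contra hcon
  have h0 : G.e S T = 0 := by omega
  have hx : x ∈ S ∪ T := by rw [hU]; exact mem_sdiff.2 ⟨hxC, hxP⟩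
  rcases mem_union.1 hx with hx | hx
  · exact key S T hST hU hT h0 hx
  · exact key T S hST.symm (by rw [union_comm]; exact hU) hS (by rw [e_comm]; exact h0) hx

lemma two_path {H Y : Finset V} (hYH : Y ⊆ H) (hY : G.conn Y) :
    ∀ (m : ℕ) (X : Finset V), ((H \ X) \ Y).card ≤ m → X ⊆ H → G.conn X → Disjoint X Y →
      (∀ A, X ⊆ A → A ⊆ H → Disjoint A Y → 2 ≤ G.e A (H \ A)) →
      2 ≤ G.e X Y ∨ ∃ M C, G.conn M ∧ G.conn C ∧ Disjoint M C ∧ M ⊆ H ∧ C ⊆ H ∧ X ⊆ C ∧ Y ⊆ C ∧
        0 < G.e M X ∧ 0 < G.e M Y := by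
  intro m
  induction m with
  | zero =>
    intro X hcard hXH hX hXY hcut
    left
    have h1 := hcut X (subset_refl _) hXH hXY
    have h2 : (H \ X) \ Y = ∅ := by simpa using hcard
    have h3 : G.e X (H \ X) ≤ G.e X Y := G.e_mono (subset_refl _) (sdiff_eq_empty_iff_subset.1 h2)
    omega
  | succ m ih =>
    intro X hcard hXH hX hXY hcut
    by_cases hb : 2 ≤ G.e X Y
    · left; exact hb
    right
    have h1 := hcut X (subset_refl _) hXH hXY
    have h2 := e_le2 (G := G) (U := X) (show H \ X ⊆ ((H \ X) \ Y) ∪ Y by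
      intro y hy
      by_cases hyY : y ∈ Y
      · exact mem_union_right _ hyY
      · exact mem_union_left _ (mem_sdiff.2 ⟨hy, hyY⟩))
    obtain ⟨p, hp, x, hx, hw⟩ := G.e_pos.1 (show 0 < G.e X ((H \ X) \ Y) by omega)
    have hxH : x ∈ H := (mem_sdiff.1 (mem_sdiff.1 hx).1).1
    have hxX : x ∉ X := (mem_sdiff.1 (mem_sdiff.1 hx).1).2
    have hxY : x ∉ Y := (mem_sdiff.1 hx).2
    have hXx : 0 < G.e X {x} := G.e_pos.2 ⟨p, hp, x, mem_singleton_self x, hw⟩
    have hxX' : 0 < G.e {x} X := by rw [e_comm]; exact hXx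
    have hX'c : G.conn (X ∪ {x}) := conn_union hX (kc_singleton 1 x) hXx
    have hdisj : Disjoint X {x} := by simpa using hxX
    have hxuniv := G.e_single_univ x
    have hX'card : ((H \ (X ∪ {x})) \ Y).card ≤ m := by
      have h3 : ((H \ (X ∪ {x})) \ Y).card < ((H \ X) \ Y).card := by
        apply card_lt_card
        refine ⟨?_, ?_⟩
        · intro y hy
          simp only [mem_sdiff, mem_union] at hy ⊢
          tauto
        · intro h'
          have := h' hx
          simp at this
      omega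
    rcases ih (X ∪ {x}) hX'card (union_subset hXH (by simpa using hxH)) hX'c (by
        rw [disjoint_union_left]; exact ⟨hXY, by simpa using hxY⟩)
        (fun A hA => hcut A (subset_union_left.trans hA)) with hbeta | ⟨M, C, hM, hC, hMC, hMH, hCH, hXC, hYC, hMX, hMY⟩
    · -- (β')
      rw [G.e_union_left hdisj] at hbeta
      have hxY1 : 0 < G.e {x} Y := by omega
      by_cases hXY1 : 0 < G.e X Y
      · refine ⟨{x}, X ∪ Y, kc_singleton 1 x, conn_union hX hY hXY1, ?_, by simpa using hxH,
          union_subset hXH hYH, subset_union_left, subset_union_right, hxX', hxY1⟩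
        rw [disjoint_singleton_left, mem_union]
        exact fun h' => h'.elim hxX hxY
      · obtain ⟨Cs, hXCs, hCsR, hCsc, hCs0⟩ := exists_comp_ge (G := G) (X := X)
          (R := H \ ({x} ∪ Y)) hX (by
            intro y hy
            rw [mem_sdiff, mem_union, mem_singleton]
            refine ⟨hXH hy, ?_⟩
            rintro (rfl | h')
            · exact hxX hy
            · exact Finset.disjoint_left.1 hXY hy h')
        have hCsH : Cs ⊆ H := hCsR.trans sdiff_subset
        have hCsx : x ∉ Cs := fun h' => by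
          have := (mem_sdiff.1 (hCsR h')).2
          simp at this
        have hCsY : Disjoint Cs Y := by
          rw [Finset.disjoint_left]
          intro y hy hyY
          exact (mem_sdiff.1 (hCsR hy)).2 (mem_union_right _ hyY)
        have h4 := hcut Cs hXCs hCsH hCsY
        have h5 := e_le3 (G := G) (U := Cs) (show H \ Cs ⊆ ((H \ ({x} ∪ Y)) \ Cs) ∪ {x} ∪ Y by
          intro y hy
          obtain ⟨hyH, hyC⟩ := mem_sdiff.1 hy
          simp only [mem_union, mem_sdiff, mem_singleton]
          tauto)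
        have h6 : G.e {x} Cs + G.e {x} Y ≤ G.e {x} univ :=
          e_ge2 (subset_univ _) (subset_univ _) hCsY
        rw [e_comm G Cs {x}] at h5
        refine ⟨{x}, Cs ∪ Y, kc_singleton 1 x, conn_union hCsc hY (by omega), ?_,
          by simpa using hxH, union_subset hCsH hYH, hXCs.trans subset_union_left,
          subset_union_right, hxX', hxY1⟩
        rw [disjoint_singleton_left, mem_union]
        exact fun h' => h'.elim hCsx hxY
    · -- (α')
      by_cases hMX0 : 0 < G.e M X
      · exact ⟨M, C, hM, hC, hMC, hMH, hCH, subset_union_left.trans hXC, hYC, hMX0, hMY⟩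
      have hMX0' : G.e M X = 0 := by omega
      have hxC : x ∈ C := hXC (mem_union_right _ (mem_singleton_self x))
      have hXC' : X ⊆ C := subset_union_left.trans hXC
      have hXM : Disjoint X M := hMC.symm.mono_left hXC'
      have hYM : Disjoint Y M := hMC.symm.mono_left hYC
      have hxM : x ∉ M := fun h' => Finset.disjoint_left.1 hMC h' hxC
      rw [G.e_union_right hdisj, hMX0', Nat.zero_add] at hMX
      obtain ⟨Cs, hXCs, hCsR, hCsc, hCs0⟩ := exists_comp_ge (G := G) (X := X)
        (R := H \ ({x} ∪ M ∪ Y)) hX (by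
          intro y hy
          rw [mem_sdiff, mem_union, mem_union, mem_singleton]
          refine ⟨hXH hy, ?_⟩
          rintro ((rfl | h') | h')
          · exact hxX hy
          · exact Finset.disjoint_left.1 hXM hy h'
          · exact Finset.disjoint_left.1 hXY hy h')
      have hCsH : Cs ⊆ H := hCsR.trans sdiff_subset
      have hCsx : x ∉ Cs := fun h' => by
        have := (mem_sdiff.1 (hCsR h')).2
        simp at this
      have hCsY : Disjoint Cs Y := by
        rw [Finset.disjoint_left]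
        intro y hy hyY
        exact (mem_sdiff.1 (hCsR hy)).2 (mem_union_right _ hyY)
      have hCsM : Disjoint Cs M := by
        rw [Finset.disjoint_left]
        intro y hy hyY
        exact (mem_sdiff.1 (hCsR hy)).2 (mem_union_left _ (mem_union_right _ hyY))
      have h4 := hcut Cs hXCs hCsH hCsY
      have h5 := e_le4 (G := G) (U := Cs) (show H \ Cs ⊆ ((H \ ({x} ∪ M ∪ Y)) \ Cs) ∪ {x} ∪ M ∪ Y by
        intro y hy
        obtain ⟨hyH, hyC⟩ := mem_sdiff.1 hy
        simp only [mem_union, mem_sdiff, mem_singleton]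
        tauto)
      have hxMne : 0 < G.e {x} M := by rw [e_comm]; exact hMX
      have hMxc : G.conn (M ∪ {x}) := conn_union hM (kc_singleton 1 x) hMX
      by_cases hCY : 0 < G.e Cs Y
      · refine ⟨M ∪ {x}, Cs ∪ Y, hMxc, conn_union hCsc hY hCY, ?_,
          union_subset hMH (by simpa using hxH), union_subset hCsH hYH,
          hXCs.trans subset_union_left, subset_union_right, ?_, ?_⟩
        · rw [disjoint_union_left, disjoint_union_right, disjoint_union_right]
          exact ⟨⟨hCsM.symm, hYM.symm⟩, ⟨by simpa using hCsx, by simpa using hxY⟩⟩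
        · exact hxX'.trans_le (G.e_mono subset_union_right (subset_refl _))
        · exact hMY.trans_le (G.e_mono subset_union_left (subset_refl _))
      -- C \ Cs is connected
      have hCrest : G.e (C ∩ Cs) ((C \ Cs) \ {x}) = 0 := by
        have h6 : G.e (C ∩ Cs) ((C \ Cs) \ {x}) ≤ G.e Cs (((H \ ({x} ∪ M ∪ Y)) \ Cs) ∪ Y) :=
          G.e_mono inter_subset_right (by
            intro y hy
            obtain ⟨hy1, hyx⟩ := mem_sdiff.1 hy
            obtain ⟨hyC, hyCs⟩ := mem_sdiff.1 hy1
            by_cases hyY : y ∈ Y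
            · exact mem_union_right _ hyY
            · apply mem_union_left
              rw [mem_sdiff, mem_sdiff, mem_union, mem_union]
              refine ⟨⟨hCH hyC, ?_⟩, hyCs⟩
              rintro ((h' | h') | h')
              · exact hyx h'
              · exact Finset.disjoint_left.1 hMC h' hyC
              · exact hyY h')
        have h7 := e_le2 (G := G) (U := Cs) (subset_refl (((H \ ({x} ∪ M ∪ Y)) \ Cs) ∪ Y))
        omega
      have hrest : G.conn (C \ Cs) := conn_rest hC hxC hCsx hCrest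
      by_cases hCM : 0 < G.e Cs M
      · -- absorb a component of Cs \ X into M
        obtain ⟨c, hc, t, ht, hw'⟩ := G.e_pos.1 hCM
        have hcX : c ∉ X := by
          intro h'
          have : 0 < G.e M X := G.e_pos.2 ⟨t, ht, c, h', by rw [G.symm]; exact hw'⟩
          omega
        obtain ⟨Z, hcZ, hZR, hZc, hZ0⟩ := exists_comp_ge (G := G) (X := {c}) (R := Cs \ X)
          (kc_singleton 1 c) (by
            rw [singleton_subset_iff, mem_sdiff]; exact ⟨hc, hcX⟩)
        have hcZ' : c ∈ Z := hcZ (mem_singleton_self c)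
        have hZCs : Z ⊆ Cs := hZR.trans sdiff_subset
        have hZX : 0 < G.e Z X := by
          obtain ⟨x0, hx0⟩ := hX.1
          have h6 := hCsc.cut hZCs hZc.1 ⟨x0, mem_sdiff.2 ⟨hXCs hx0, fun h' =>
            (mem_sdiff.1 (hZR h')).2 hx0⟩⟩
          have h7 := e_le2 (G := G) (U := Z) (show Cs \ Z ⊆ ((Cs \ X) \ Z) ∪ X by
            intro y hy
            obtain ⟨hyH, hyC⟩ := mem_sdiff.1 hy
            simp only [mem_union, mem_sdiff]
            tauto)
          omega
        have hMZ : G.conn (M ∪ Z) := conn_union hM hZc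
          (G.e_pos.2 ⟨t, ht, c, hcZ', by rw [G.symm]; exact hw'⟩)
        have hXr : G.conn (X ∪ (C \ Cs)) := conn_union hX hrest
          (G.e_pos.2 ⟨p, hp, x, mem_sdiff.2 ⟨hxC, hCsx⟩, hw⟩)
        refine ⟨M ∪ Z, X ∪ (C \ Cs), hMZ, hXr, ?_, union_subset hMH (hZCs.trans hCsH),
          union_subset hXH (sdiff_subset.trans hCH), subset_union_left, ?_, ?_, ?_⟩
        · rw [disjoint_union_left, disjoint_union_right, disjoint_union_right]
          refine ⟨⟨hXM.symm, hMC.mono_right sdiff_subset⟩, ?_, ?_⟩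
          · rw [Finset.disjoint_left]
            intro y hy hyX
            exact (mem_sdiff.1 (hZR hy)).2 hyX
          · rw [Finset.disjoint_left]
            intro y hy hy'
            exact (mem_sdiff.1 hy').2 (hZCs hy)
        · intro y hy
          exact mem_union_right _ (mem_sdiff.2 ⟨hYC hy, fun h' => Finset.disjoint_left.1 hCsY h' hy⟩)
        · exact hZX.trans_le (G.e_mono subset_union_right (subset_refl _))
        · exact hMY.trans_le (G.e_mono subset_union_left (subset_refl _))
      · -- contradiction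
        exfalso
        have h6 : G.e {x} M + G.e {x} Cs ≤ G.e {x} univ :=
          e_ge2 (subset_univ _) (subset_univ _) hCsM.symm
        rw [e_comm G Cs {x}] at h5
        have hxs : G.e {x} (univ \ (Cs ∪ M)) = 0 := by
          have h7 : G.e {x} univ = G.e {x} (Cs ∪ M) + G.e {x} (univ \ (Cs ∪ M)) :=
            G.e_split_right (subset_univ _) _
          rw [G.e_union_right hCsM] at h7
          omega
        -- the part (C ∩ Cs) ∪ {x} is closed in C
        have hrest2 : (C \ Cs) \ {x} ≠ ∅ := by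
          obtain ⟨y, hy⟩ := hY.1
          intro h'
          have : y ∈ (C \ Cs) \ {x} := by
            rw [mem_sdiff, mem_sdiff, mem_singleton]
            exact ⟨⟨hYC hy, fun h' => Finset.disjoint_left.1 hCsY h' hy⟩, by rintro rfl; exact hxY hy⟩
          rw [h'] at this
          simp at this
        have h8 : 1 ≤ G.e {x} ((C \ Cs) \ {x}) := hrest.cut (by
          rw [singleton_subset_iff, mem_sdiff]; exact ⟨hxC, hCsx⟩) (by simp)
          (nonempty_iff_ne_empty.2 hrest2)
        have h9 : G.e {x} ((C \ Cs) \ {x}) ≤ G.e {x} (univ \ (Cs ∪ M)) :=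
          G.e_mono (subset_refl _) (by
            intro y hy
            obtain ⟨hy1, -⟩ := mem_sdiff.1 hy
            obtain ⟨hyC, hyCs⟩ := mem_sdiff.1 hy1
            rw [mem_sdiff, mem_union]
            exact ⟨mem_univ _, fun h' => h'.elim hyCs (fun h'' => Finset.disjoint_left.1 hMC h'' hyC)⟩)
        omega

/-- the form used below -/
lemma two_path' {H X Y : Finset V} (hH : G.conn H) (hXH : X ⊆ H) (hX : G.conn X) (hYH : Y ⊆ H)
    (hY : G.conn Y) (hXY : Disjoint X Y) (he : G.e X Y = 0)
    (hcut : ∀ A, X ⊆ A → A ⊆ H → Disjoint A Y → 2 ≤ G.e A (H \ A)) :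
    ∃ M, M ⊆ H ∧ G.conn M ∧ G.conn (H \ M) ∧ Disjoint M (X ∪ Y) ∧ 0 < G.e M X ∧ 0 < G.e M Y := by
  rcases two_path hYH hY _ X le_rfl hXH hX hXY hcut with h | ⟨M, C, hM, hC, hMC, hMH, hCH, hXC, hYC, hMX, hMY⟩
  · omega
  obtain ⟨C', hCC', hC'R, hC'c, hC'0⟩ := exists_comp_ge (G := G) (X := C) (R := H \ M) hC (by
    intro y hy
    rw [mem_sdiff]; exact ⟨hCH hy, fun h' => Finset.disjoint_left.1 hMC h' hy⟩)
  have hC'H : C' ⊆ H := hC'R.trans sdiff_subset
  have hMM' : M ⊆ H \ C' := by
    intro y hy
    rw [mem_sdiff]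
    exact ⟨hMH hy, fun h' => (mem_sdiff.1 (hC'R h')).2 hy⟩
  refine ⟨H \ C', sdiff_subset, ?_, by rw [Finset.sdiff_sdiff_eq_self hC'H]; exact hC'c, ?_,
    hMX.trans_le (G.e_mono hMM' (subset_refl _)), hMY.trans_le (G.e_mono hMM' (subset_refl _))⟩
  · refine ⟨hM.1.mono hMM', ?_⟩
    have key : ∀ S T : Finset V, Disjoint S T → S ∪ T = H \ C' → T.Nonempty → G.e S T = 0 →
        M ⊆ S → False := by
      intro S T hST hU hT h0 hMS
      have hTH : T ⊆ H \ C' := hU ▸ subset_union_right
      obtain ⟨c0, hc0⟩ := hC'c.1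
      have h1 := hH.cut (hTH.trans sdiff_subset) hT ⟨c0, mem_sdiff.2 ⟨hC'H hc0, fun h' =>
        (mem_sdiff.1 (hTH h')).2 hc0⟩⟩
      have h2 := e_le2 (G := G) (U := T) (show H \ T ⊆ S ∪ C' by
        intro y hy
        obtain ⟨hyH, hyT⟩ := mem_sdiff.1 hy
        by_cases hyC : y ∈ C'
        · exact mem_union_right _ hyC
        · have : y ∈ S ∪ T := by rw [hU]; exact mem_sdiff.2 ⟨hyH, hyC⟩
          rcases mem_union.1 this with h' | h'
          · exact mem_union_left _ h'
          · exact (hyT h').elim)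
      have h3 : G.e C' T ≤ G.e C' ((H \ M) \ C') := G.e_mono (subset_refl _) (by
        intro y hy
        obtain ⟨hyH, hyC⟩ := mem_sdiff.1 (hTH hy)
        rw [mem_sdiff, mem_sdiff]
        exact ⟨⟨hyH, fun h' => Finset.disjoint_left.1 hST (hMS h') hy⟩, hyC⟩)
      rw [e_comm G T S, e_comm G T C'] at h2
      omega
    intro S T hST hU hS hT
    by_contra hcon
    have h0 : G.e S T = 0 := by omega
    rcases conn_side hM (by rw [hU]; exact hMM') hST h0 with h | h
    · exact key S T hST hU hT h0 h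
    · exact key T S hST.symm (by rw [union_comm]; exact hU) hS (by rw [e_comm]; exact h0) h
  · rw [Finset.disjoint_left]
    intro y hy hy'
    have hyC : y ∈ C := by
      rcases mem_union.1 hy' with h' | h'
      · exact hXC h'
      · exact hYC h'
    exact (mem_sdiff.1 hy).2 (hCC' hyC)

end Cub

end Run7.h672
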